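import Mathlib

/-!
# Four points in one residue class: the determinant in a ring with `p ^ 6 = 0`

Proof (indices 0, 1, 2, 3). `s i j = U i ^ 3 + U i ^ 2 * U j + U i * U j ^ 2 + U j ^ 3` is a unit (it is
`4 * U j ^ 3` plus a nilpotent). With `D i = A * V i ^ 4 + B` (unit) one has
`U i ^ 4 = (A' + B' * V i ^ 4) / D i`, so
`U i ^ 4 - U j ^ 4 = (V i - V j) * w i j`, where
`w i j = (B * B' - A * A') * (V i ^ 3 + V i ^ 2 * V j + V i * V j ^ 2 + V j ^ 3) / (D i * D j)`, and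
`U i - U j = (V i - V j) * h i j` with `h i j = w i j / s i j` (symmetric).
Second differences: `h i k - h i j = (V k - V j) * h2 i j k`, because
`w i k - w i j = (V k - V j) * w2 i j k` (explicit) and
`s i k - s i j = (U k - U j) * (...) = (V k - V j) * h j k * (...)`.
`h2 i j k`, `h j k` are the same expressions in units and the `U`, `V`, so replacing `k` by `l` changes
them by a multiple of `p`.
Determinant: subtract row 0, take `V i - V 0` out of the rows 1, 2, 3: rows `(1, h i 0, U i)` (after a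
column operation); subtract row 1 and take out `V 2 - V 1`, `V 3 - V 1`: what is left is
`h2 0 1 2 * h 1 3 - h2 0 1 3 * h 1 2`, a multiple of `p`. Total `p ^ 6 = 0`.
-/

set_option autoImplicit false

namespace Pool.H68.MT

private theorem unit_of_congr {S : Type} [CommRing S] {p a b : S} (hp : p ^ 6 = 0) (ha : IsUnit a)
    (h : p ∣ b - a) : IsUnit b := by
  have hn : IsNilpotent (b - a) := by
    obtain ⟨c, hc⟩ := h
    exact ⟨6, by rw [hc, mul_pow, hp, zero_mul]⟩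
  have h1 := hn.isUnit_add_left_of_commute ha (Commute.all _ _)
  rwa [add_sub_cancel] at h1

/-- the determinant, expanded -/
private theorem det_eq {S : Type} [CommRing S] (U V : Fin 4 → S) (h1 h2 h3 : S)
    (e1 : U 1 - U 0 = (V 1 - V 0) * h1) (e2 : U 2 - U 0 = (V 2 - V 0) * h2)
    (e3 : U 3 - U 0 = (V 3 - V 0) * h3) :
    Matrix.det (Matrix.of fun i : Fin 4 => ![U i * V i, U i, V i, 1]) =
      (V 1 - V 0) * (V 2 - V 0) * (V 3 - V 0) *
        ((U 3 - U 1) * (h2 - h1) - (U 2 - U 1) * (h3 - h1)) := by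
  have f1 : U 1 = U 0 + (V 1 - V 0) * h1 := by linear_combination e1
  have f2 : U 2 = U 0 + (V 2 - V 0) * h2 := by linear_combination e2
  have f3 : U 3 = U 0 + (V 3 - V 0) * h3 := by linear_combination e3
  rw [Matrix.det_succ_row_zero]
  simp only [Matrix.det_fin_three, Fin.sum_univ_succ, Matrix.submatrix_apply, Matrix.of_apply,
    Fin.sum_univ_zero, Matrix.cons_val_zero, Matrix.cons_val_succ]
  simp [Fin.succAbove]
  rw [f1, f2, f3]
  ring

theorem ring_det {S : Type} [CommRing S] (p : S) (hp : p ^ 6 = 0) (h2 : IsUnit (2 : S))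
    (U V : Fin 4 → S) (A B A' B' : S) (hU : ∀ i, IsUnit (U i))
    (hD : ∀ i, IsUnit (A * V i ^ 4 + B))
    (hrel : ∀ i, U i ^ 4 * (A * V i ^ 4 + B) = A' + B' * V i ^ 4)
    (hUc : ∀ i j, p ∣ U i - U j) (hVc : ∀ i j, p ∣ V i - V j) :
    Matrix.det (Matrix.of fun i : Fin 4 => ![U i * V i, U i, V i, 1]) = 0 := by
  classical
  obtain ⟨e, he⟩ : ∃ e : Fin 4 → S, ∀ i, e i * (A * V i ^ 4 + B) = 1 := by
    choose e he using fun i => (hD i).exists_left_inv
    exact ⟨e, he⟩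
  obtain ⟨s, hs⟩ : ∃ s : Fin 4 → Fin 4 → S, ∀ i j, s i j =
      U i ^ 3 + U i ^ 2 * U j + U i * U j ^ 2 + U j ^ 3 := ⟨_, fun _ _ => rfl⟩
  have hsu : ∀ i j, IsUnit (s i j) := by
    intro i j
    refine unit_of_congr hp (a := 2 * 2 * U j ^ 3) ((h2.mul h2).mul ((hU j).pow 3)) ?_
    have h4 : s i j - 2 * 2 * U j ^ 3 = (U i - U j) * (U i ^ 2 + 2 * U i * U j + 3 * U j ^ 2) := by
      rw [hs]
      ring
    rw [h4]
    exact (hUc i j).mul_right _
  obtain ⟨t, ht⟩ : ∃ t : Fin 4 → Fin 4 → S, ∀ i j, t i j * s i j = 1 := by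
    choose t ht using fun i j => (hsu i j).exists_left_inv
    exact ⟨t, ht⟩
  obtain ⟨K, hK⟩ : ∃ K : S, K = B * B' - A * A' := ⟨_, rfl⟩
  obtain ⟨q, hq⟩ : ∃ q : Fin 4 → Fin 4 → S, ∀ i j, q i j =
      V i ^ 3 + V i ^ 2 * V j + V i * V j ^ 2 + V j ^ 3 := ⟨_, fun _ _ => rfl⟩
  obtain ⟨h, hh⟩ : ∃ h : Fin 4 → Fin 4 → S, ∀ i j, h i j = t i j * (K * e i * e j * q i j) :=
    ⟨_, fun _ _ => rfl⟩
  -- first differences
  have h4 : ∀ i, U i ^ 4 = e i * (A' + B' * V i ^ 4) := by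
    intro i
    linear_combination (e i) * hrel i - (U i ^ 4) * he i
  have hw : ∀ i j, (U i - U j) * s i j = (V i - V j) * (K * e i * e j * q i j) := by
    intro i j
    have g1 : (U i - U j) * s i j = U i ^ 4 - U j ^ 4 := by rw [hs]; ring
    have g2 : (V i - V j) * q i j = V i ^ 4 - V j ^ 4 := by rw [hq]; ring
    rw [g1, h4, h4, hK]
    linear_combination (-(e i * (A' + B' * V i ^ 4))) * he j + (e j * (A' + B' * V j ^ 4)) * he i
      - (B * B' - A * A') * e i * e j * g2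
  have hdU : ∀ i j, U i - U j = (V i - V j) * h i j := by
    intro i j
    rw [hh]
    linear_combination (t i j) * hw i j - (U i - U j) * ht i j
  have hde : ∀ k j, e k - e j = (V k - V j) * (-(A * e k * e j * q k j)) := by
    intro k j
    have g2 : (V k - V j) * q k j = V k ^ 4 - V j ^ 4 := by rw [hq]; ring
    linear_combination (-(e k)) * he j + (e j) * he k + A * e k * e j * g2
  -- second differences
  obtain ⟨r, hr⟩ : ∃ r : Fin 4 → Fin 4 → S, ∀ k j, r k j =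
      V 0 ^ 2 + V 0 * (V k + V j) + V k ^ 2 + V k * V j + V j ^ 2 := ⟨_, fun _ _ => rfl⟩
  obtain ⟨m, hm⟩ : ∃ m : Fin 4 → Fin 4 → S, ∀ k j, m k j =
      U 0 ^ 2 + U 0 * (U k + U j) + U k ^ 2 + U k * U j + U j ^ 2 := ⟨_, fun _ _ => rfl⟩
  have hdq : ∀ k j, q k 0 - q j 0 = (V k - V j) * r k j := by
    intro k j
    rw [hq, hq, hr]
    ring
  have hdt : ∀ k j, t k 0 - t j 0 = (V k - V j) * (-(t k 0 * t j 0 * h k j * m k j)) := by
    intro k j
    have g1 : s k 0 - s j 0 = (U k - U j) * m k j := by rw [hs, hs, hm]; ring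
    linear_combination (-(t k 0)) * ht j 0 + (t j 0) * ht k 0 - t k 0 * t j 0 * g1
      - t k 0 * t j 0 * m k j * hdU k j
  obtain ⟨g, hg⟩ : ∃ g : Fin 4 → Fin 4 → S, ∀ k j, g k j =
      K * e 0 * (-(A * e k * e j * q k j) * q k 0 * t k 0 + e j * r k j * t k 0 -
        e j * q j 0 * (t k 0 * t j 0 * h k j * m k j)) := ⟨_, fun _ _ => rfl⟩
  have hdh : ∀ k j, h k 0 - h j 0 = (V k - V j) * g k j := by
    intro k j
    rw [hh, hh, hg]
    linear_combination (K * e 0 * (q k 0 * t k 0)) * hde k j + (K * e 0 * (e j * t k 0)) * hdq k j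
      + (K * e 0 * (e j * q j 0)) * hdt k j
  -- congruences
  have hπ : ∀ x y : S, Ideal.Quotient.mk (Ideal.span {p}) x = Ideal.Quotient.mk (Ideal.span {p}) y ↔
      p ∣ x - y := by
    intro x y
    rw [Ideal.Quotient.mk_eq_mk_iff_sub_mem, Ideal.mem_span_singleton]
  obtain ⟨π, hπd⟩ : ∃ π : S →+* S ⧸ Ideal.span {p}, ∀ x y : S, π x = π y ↔ p ∣ x - y :=
    ⟨Ideal.Quotient.mk (Ideal.span {p}), hπ⟩
  obtain ⟨u, hu⟩ : ∃ u, ∀ i, π (U i) = u := ⟨π (U 0), fun i => (hπd _ _).2 (hUc i 0)⟩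
  obtain ⟨v, hv⟩ : ∃ v, ∀ i, π (V i) = v := ⟨π (V 0), fun i => (hπd _ _).2 (hVc i 0)⟩
  obtain ⟨e', he'⟩ : ∃ e', ∀ i, π (e i) = e' := by
    refine ⟨π (e 0), fun i => ?_⟩
    have a1 := congrArg π (he i)
    have a2 := congrArg π (he 0)
    simp only [map_mul, map_add, map_pow, map_one, hv] at a1 a2
    linear_combination (-(π (e i))) * a2 + π (e 0) * a1
  obtain ⟨t', ht'⟩ : ∃ t', ∀ i j, π (t i j) = t' := by
    refine ⟨π (t 0 0), fun i j => ?_⟩
    have a1 := congrArg π (ht i j)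
    have a2 := congrArg π (ht 0 0)
    rw [hs] at a1 a2
    simp only [map_mul, map_add, map_pow, map_one, hu] at a1 a2
    linear_combination (-(π (t i j))) * a2 + π (t 0 0) * a1
  obtain ⟨h', hh'⟩ : ∃ h', ∀ i j, π (h i j) = h' := by
    refine ⟨π (h 0 0), fun i j => ?_⟩
    simp only [hh, hq, map_mul, map_add, map_pow, hv, he', ht']
  obtain ⟨g', hg'⟩ : ∃ g', ∀ i j, π (g i j) = g' := by
    refine ⟨π (g 0 0), fun i j => ?_⟩
    simp only [hg, hq, hr, hm, map_mul, map_add, map_sub, map_neg, map_pow, hu, hv, he', ht', hh']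
  have hlast : p ∣ h 2 1 * g 3 1 - h 3 1 * g 2 1 := by
    rw [← sub_zero (h 2 1 * g 3 1 - h 3 1 * g 2 1), ← hπd, map_zero, map_sub, map_mul, map_mul,
      hh', hh', hg', hg']
    ring
  -- the end
  rw [det_eq U V (h 1 0) (h 2 0) (h 3 0) (hdU 1 0) (hdU 2 0) (hdU 3 0), hdU 2 1, hdU 3 1,
    hdh 3 1, hdh 2 1]
  obtain ⟨c1, hc1⟩ := hVc 1 0
  obtain ⟨c2, hc2⟩ := hVc 2 0
  obtain ⟨c3, hc3⟩ := hVc 3 0
  obtain ⟨c4, hc4⟩ := hVc 2 1
  obtain ⟨c5, hc5⟩ := hVc 3 1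
  obtain ⟨c6, hc6⟩ := hlast
  have hfin : (V 3 - V 1) * h 3 1 * ((V 2 - V 1) * g 2 1) - (V 2 - V 1) * h 2 1 * ((V 3 - V 1) * g 3 1)
      = -((V 2 - V 1) * (V 3 - V 1) * (h 2 1 * g 3 1 - h 3 1 * g 2 1)) := by ring
  rw [hfin, hc6, hc1, hc2, hc3, hc4, hc5]
  have : p * c1 * (p * c2) * (p * c3) * -(p * c4 * (p * c5) * (p * c6)) =
      p ^ 6 * -(c1 * c2 * c3 * c4 * c5 * c6) := by ring
  rw [this, hp, zero_mul]

end Pool.H68.MT
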