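import Pool.Agent.H68.MT.Tens
import Pool.Agent.H68.MT.Ring
import Pool.Agent.H68.MS.Div

/-!
# The determinant of four points in one residue class is divisible by `p ^ 6`

Proof. `S = GaussianInt ⧸ Ideal.span {(p : GaussianInt) ^ 6}`. A Gaussian integer whose norm is not
divisible by `p` is a unit in `S` (`x * star x = norm`, and an integer prime to `p` is prime to `p ^ 6`).
`U i = z i / star (z i)`, `V i = w i / star (w i)` in `S`; `im = 0` means
`z ^ 4 * cf w = star (z ^ 4 * cf w)`, i.e. `U ^ 4 * (A * V ^ 4 + B) = star A + star B * V ^ 4` after division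
by `star z ^ 4 * star w ^ 4`. `z i * star (z j) - z j * star (z i) = 2 I im` gives `p ∣ U i - U j`.
`ring_det` gives: the determinant of the rows
`(z w, z (star w), (star z) w, (star z) (star w))` is divisible by `p ^ 6` in the Gaussian integers; these
rows are the rows `tens` times a fixed `4 × 4` matrix of determinant `16`, `z = re + I im` etc., so
`p ^ 6 ∣ 16 * det tens` in the Gaussian integers, hence in the integers, and `p` is odd.
-/

set_option autoImplicit false

namespace Pool.H68.MT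

private theorem unit_of_norm {p : ℕ} (hp : p.Prime) {x : GaussianInt} (hx : ¬ (p : ℤ) ∣ x.norm) :
    IsUnit (Ideal.Quotient.mk (Ideal.span {(p : GaussianInt) ^ 6}) x) := by
  have hcop : IsCoprime x.norm ((p : ℤ) ^ 6) := by
    refine IsCoprime.pow_right ?_
    rw [isCoprime_comm]
    exact (Nat.prime_iff_prime_int.1 hp).coprime_iff_not_dvd.2 hx
  obtain ⟨a, b, hab⟩ := hcop
  refine isUnit_iff_exists_inv.2 ⟨Ideal.Quotient.mk _ (star x * (a : GaussianInt)), ?_⟩
  rw [← map_mul, ← sub_eq_zero, ← map_one (Ideal.Quotient.mk (Ideal.span {(p : GaussianInt) ^ 6})), ← map_sub,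
    Ideal.Quotient.eq_zero_iff_mem, Ideal.mem_span_singleton]
  refine ⟨-(b : GaussianInt), ?_⟩
  have h1 : x * star x = ((x.norm : ℤ) : GaussianInt) := (Zsqrtd.norm_eq_mul_conj x).symm
  have h2 : ((a * x.norm + b * (p : ℤ) ^ 6 : ℤ) : GaussianInt) = 1 := by
    rw [hab]
    simp
  push_cast at h2
  linear_combination (a : GaussianInt) * h1 + h2

private theorem norm_star (x : GaussianInt) : (star x).norm = x.norm := Zsqrtd.norm_conj x

/-- a Gaussian integer minus its conjugate -/
private theorem sub_star (x : GaussianInt) {p : ℕ} (h : (p : ℤ) ∣ x.im) :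
    (p : GaussianInt) ∣ x - star x := by
  obtain ⟨c, hc⟩ := h
  refine ⟨⟨0, 2 * c⟩, ?_⟩
  ext
  · simp
  · simp only [Zsqrtd.im_sub, Zsqrtd.im_star, Zsqrtd.im_mul, Zsqrtd.re_natCast, Zsqrtd.im_natCast, hc]
    ring

private def Cm : Matrix (Fin 4) (Fin 4) GaussianInt :=
  !![1, 1, 1, 1; ⟨0, 1⟩, -⟨0, 1⟩, ⟨0, 1⟩, -⟨0, 1⟩; ⟨0, 1⟩, ⟨0, 1⟩, -⟨0, 1⟩, -⟨0, 1⟩; -1, 1, 1, -1]

private def Cm' : Matrix (Fin 4) (Fin 4) GaussianInt :=
  !![1, -⟨0, 1⟩, -⟨0, 1⟩, -1; 1, ⟨0, 1⟩, -⟨0, 1⟩, 1; 1, -⟨0, 1⟩, ⟨0, 1⟩, 1; 1, ⟨0, 1⟩, ⟨0, 1⟩, -1]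

private theorem Cm_mul : Cm * Cm' = (4 : GaussianInt) • (1 : Matrix (Fin 4) (Fin 4) GaussianInt) := by
  unfold Cm Cm'
  ext i j <;> fin_cases i <;> fin_cases j <;>
    simp [Matrix.mul_apply, Fin.sum_univ_four]

theorem det_dvd {p : ℕ} (hp : p.Prime) (h2 : p ≠ 2) (A B : GaussianInt)
    (z w : Fin 4 → GaussianInt) (hz : ∀ i, ¬ (p : ℤ) ∣ (z i).norm)
    (hw : ∀ i, ¬ (p : ℤ) ∣ (w i).norm) (hc : ∀ i, ¬ (p : ℤ) ∣ (cf A B (w i)).norm)
    (hrel : ∀ i, ((z i) ^ 4 * cf A B (w i)).im = 0)
    (hzc : ∀ i j, (p : ℤ) ∣ (z i * star (z j)).im) (hwc : ∀ i j, (p : ℤ) ∣ (w i * star (w j)).im) :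
    (p : ℤ) ^ 6 ∣ Matrix.det (Matrix.of fun i : Fin 4 => tens (z i) (w i)) := by
  obtain ⟨π, hπ⟩ : ∃ π : GaussianInt →+* GaussianInt ⧸ Ideal.span {(p : GaussianInt) ^ 6},
      π = Ideal.Quotient.mk (Ideal.span {(p : GaussianInt) ^ 6}) := ⟨_, rfl⟩
  have hu : ∀ x : GaussianInt, ¬ (p : ℤ) ∣ x.norm → IsUnit (π x) := fun x hx => by
    rw [hπ]
    exact unit_of_norm hp hx
  have hker : ∀ x : GaussianInt, π x = 0 → (p : GaussianInt) ^ 6 ∣ x := fun x hx => by
    rw [hπ, Ideal.Quotient.eq_zero_iff_mem, Ideal.mem_span_singleton] at hx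
    exact hx
  have hp6 : (π (p : GaussianInt)) ^ 6 = 0 := by
    rw [← map_pow, hπ, Ideal.Quotient.eq_zero_iff_mem, Ideal.mem_span_singleton]
  have hpi : Prime (p : ℤ) := Nat.prime_iff_prime_int.1 hp
  have hp2 : ¬ (p : ℤ) ∣ 2 := by
    intro h
    have h3 : p ∣ 2 := by exact_mod_cast h
    exact h2 ((Nat.prime_dvd_prime_iff_eq hp Nat.prime_two).1 h3)
  have hunit2 : IsUnit (2 : GaussianInt ⧸ Ideal.span {(p : GaussianInt) ^ 6}) := by
    have h3 := hu (2 : GaussianInt) (by
      intro h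
      have h4 : (2 : GaussianInt).norm = 2 * 2 := by
        rw [Zsqrtd.norm_def]
        simp
      rw [h4] at h
      rcases hpi.dvd_or_dvd h with h | h
      · exact hp2 h
      · exact hp2 h)
    rwa [map_ofNat] at h3
  have hz' : ∀ i, ∃ c, π (star (z i)) * c = 1 := fun i =>
    isUnit_iff_exists_inv.1 (hu _ (by rw [norm_star]; exact hz i))
  have hw' : ∀ i, ∃ c, π (star (w i)) * c = 1 := fun i =>
    isUnit_iff_exists_inv.1 (hu _ (by rw [norm_star]; exact hw i))
  choose cz hcz using hz'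
  choose cw hcw using hw'
  have ucz : ∀ i, IsUnit (cz i) := fun i => IsUnit.of_mul_eq_one (π (star (z i))) (by rw [mul_comm]; exact hcz i)
  have ucw : ∀ i, IsUnit (cw i) := fun i => IsUnit.of_mul_eq_one (π (star (w i))) (by rw [mul_comm]; exact hcw i)
  have hD : ∀ i, π A * (π (w i) * cw i) ^ 4 + π B = cw i ^ 4 * π (cf A B (w i)) := by
    intro i
    unfold cf
    simp only [map_add, map_mul, map_pow]
    have h3 : π (star (w i)) ^ 4 * cw i ^ 4 = 1 := by rw [← mul_pow, hcw, one_pow]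
    linear_combination (-(π B)) * h3
  have hdet := ring_det (π (p : GaussianInt)) hp6 hunit2 (fun i => π (z i) * cz i) (fun i => π (w i) * cw i)
    (π A) (π B) (π (star A)) (π (star B)) (fun i => (hu _ (hz i)).mul (ucz i))
    (fun i => by
      rw [hD]
      exact ((ucw i).pow 4).mul (hu _ (hc i)))
    (fun i => by
      have h3 : (z i) ^ 4 * cf A B (w i) = star ((z i) ^ 4 * cf A B (w i)) := by
        ext
        · rw [Zsqrtd.re_star]
        · rw [Zsqrtd.im_star, hrel i, neg_zero]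
      have h4 := congrArg π h3
      have h5 : star ((z i) ^ 4 * cf A B (w i)) =
          (star (z i)) ^ 4 * (star A * (star (w i)) ^ 4 + star B * (w i) ^ 4) := by
        unfold cf
        simp only [star_mul', star_add, star_pow, star_star]
      rw [h5] at h4
      simp only [map_mul, map_add, map_pow] at h4
      have h6 : π (star (w i)) ^ 4 * cw i ^ 4 = 1 := by rw [← mul_pow, hcw, one_pow]
      have h7 : π (star (z i)) ^ 4 * cz i ^ 4 = 1 := by rw [← mul_pow, hcz, one_pow]
      rw [hD]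
      linear_combination (cz i ^ 4 * cw i ^ 4) * h4 +
        (π (star A) * π (star (w i)) ^ 4 * cw i ^ 4 + π (star B) * π (w i) ^ 4 * cw i ^ 4) * h7 +
        π (star A) * h6)
    (fun i j => by
      obtain ⟨c, hc⟩ := sub_star (z i * star (z j)) (hzc i j)
      have h3 := congrArg π hc
      rw [star_mul', star_star] at h3
      simp only [map_mul, map_sub] at h3
      refine ⟨cz i * cz j * π c, ?_⟩
      have h4 := hcz i
      have h5 := hcz j
      linear_combination (cz i * cz j) * h3 - (π (z i) * cz i) * h5 + (π (z j) * cz j) * h4)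
    (fun i j => by
      obtain ⟨c, hc⟩ := sub_star (w i * star (w j)) (hwc i j)
      have h3 := congrArg π hc
      rw [star_mul', star_star] at h3
      simp only [map_mul, map_sub] at h3
      refine ⟨cw i * cw j * π c, ?_⟩
      have h4 := hcw i
      have h5 := hcw j
      linear_combination (cw i * cw j) * h3 - (π (w i) * cw i) * h5 + (π (w j) * cw j) * h4)
  obtain ⟨M, hM⟩ : ∃ M : Matrix (Fin 4) (Fin 4) GaussianInt,
      M = Matrix.of fun i : Fin 4 => ![z i * w i, z i * star (w i), star (z i) * w i, star (z i) * star (w i)] :=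
    ⟨_, rfl⟩
  have hMdet : π M.det = 0 := by
    rw [RingHom.map_det]
    have h3 : π.mapMatrix M = Matrix.of fun i j => (π (star (z i)) * π (star (w i))) *
        (Matrix.of fun i : Fin 4 => ![(fun i => π (z i) * cz i) i * (fun i => π (w i) * cw i) i,
          (fun i => π (z i) * cz i) i, (fun i => π (w i) * cw i) i, 1]) i j := by
      ext i j
      have h4 := hcz i
      have h5 := hcw i
      fin_cases j
      · simp [hM]
        linear_combination (-(π (z i) * π (w i) * π (star (w i)) * cw i)) * h4 - (π (z i) * π (w i)) * h5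
      · simp [hM]
        linear_combination (-(π (z i) * π (star (w i)))) * h4
      · simp [hM]
        linear_combination (-(π (w i) * π (star (z i)))) * h5
      · simp [hM]
    rw [h3, Matrix.det_mul_column, hdet, mul_zero]
  have hM2 : M = (Matrix.of fun i : Fin 4 => tens (z i) (w i)).map (Int.castRingHom GaussianInt) * Cm := by
    rw [hM]
    unfold Cm tens
    ext i j <;> fin_cases j <;> simp [Matrix.mul_apply, Fin.sum_univ_four]
  have hD6 := hker _ hMdet
  have hdd : M.det * Cm'.det = (((Matrix.of fun i : Fin 4 => tens (z i) (w i)).det * 256 : ℤ) : GaussianInt) := by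
    rw [← Matrix.det_mul, hM2, Matrix.mul_assoc, Cm_mul, Matrix.mul_smul, Matrix.mul_one, Matrix.det_smul,
      ← RingHom.mapMatrix_apply, ← RingHom.map_det, Fintype.card_fin, Int.cast_mul, eq_intCast]
    norm_num
    ring
  have h8 : ((((p : ℤ) ^ 6 : ℤ)) : GaussianInt) ∣
      (((Matrix.of fun i : Fin 4 => tens (z i) (w i)).det * 256 : ℤ) : GaussianInt) := by
    rw [← hdd, Int.cast_pow, Int.cast_natCast]
    exact hD6.mul_right _
  rw [Zsqrtd.intCast_dvd_intCast] at h8
  have hcop : IsCoprime ((p : ℤ) ^ 6) 256 := by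
    refine IsCoprime.pow_left ?_
    have h9 : (256 : ℤ) = 2 ^ 8 := by norm_num
    rw [h9]
    refine IsCoprime.pow_right ?_
    exact hpi.coprime_iff_not_dvd.2 hp2
  exact hcop.dvd_of_dvd_mul_right h8

end Pool.H68.MT
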