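import Pool.Agent.H68.MT.Third

/-!
# The exponents one third and two thirds: end of the proof
-/

set_option autoImplicit false

namespace Pool.H68.MT

open Pool.H68.MS

/-- the centres of one dyadic box -/
theorem box {η C2 C3 : ℝ} (hC2 : 0 < C2) (hC3 : 0 < C3)
    (hsum : ∀ M R : ℕ, 1 ≤ M → 1 ≤ R →
      ∀ AB : GaussianInt → Finset (GaussianInt × GaussianInt), (∀ y, (AB y).card ≤ 4) →
      ∃ Qset : Finset ℕ, (Qset.card : ℝ) ≤ C2 * R * (M : ℝ) ^ η ∧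
      ∀ (g x y : GaussianInt) (n1 n2 n3 k : ℕ) (p : GaussianInt × GaussianInt), p ∈ AB y →
        g.norm = n1 → y.norm = n2 → x.norm = n3 → 0 < n1 → 0 < n2 → 0 < n3 → 0 < k →
        IsCoprime g (star g) → IsCoprime p.1 (star g) → IsCoprime p.2 (star g) →
        IsCoprime x.re x.im → IsCoprime x (star g) → IsCoprime (star x) (star g) →
        (star g) ^ 2 ∣ p.1 * x ^ 4 - p.2 * (star x) ^ 4 →
        n3 * n2 * k ≤ R * n1 → n1 * n2 * k ≤ R → n1 * n2 * n3 * k ≤ M →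
        n1 * n2 * n3 * k ∈ Qset)
    (hfp : ∀ M : ℕ, 1 ≤ M → ∀ K k : ℕ, 1 ≤ K →
      1 ≤ k → K ≤ M → k ≤ M → ∀ (s : Fin 6) (Q : ℕ) (δ : Fin 3 → GaussianInt), 0 < Q → Q ≤ M →
      (∀ j, (δ j).norm = (Q : ℤ) ^ 2) →
      ∃ S : Finset (GaussianInt × GaussianInt),
      (S.card : ℝ) ≤ C3 * ((K : ℝ) * k) ^ (1 / 3 : ℝ) * (M : ℝ) ^ η ∧
      ∀ z w : GaussianInt, IsCoprime z.re z.im → IsCoprime w.re w.im → z.norm ≤ K →
        w.norm ≤ k → (z ^ 4 * cf (AA s δ) (BB s δ) w).im = 0 →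
        (∀ j, (bet2 (A1 s) (A2 s) δ z w j ^ 2).im ≠ 0) → (z, w) ∈ S)
    {M B : ℕ} (hM : 1 ≤ M) (hB : ∀ Q, 0 < Q → Q ≤ M → 4 * (Q ^ 2).divisors.card ^ 4 ≤ B)
    (s : Fin 6) (i j : ℕ) :
    ∃ W : Finset ℕ, (W.card : ℝ) ≤ 4 * C2 * C3 * (M : ℝ) ^ (2 / 3 : ℝ) * (M : ℝ) ^ η *
        (M : ℝ) ^ η * (B : ℝ) ^ 3 ∧
      (2 ^ i * 2 ^ j ≤ M → ∀ (m : ℕ) (z w : GaussianInt) (δ : Fin 3 → GaussianInt) (Q : ℕ),
        0 < Q → Q ≤ M → (m : ℤ) = z.norm * w.norm * Q → (∀ j, (δ j).norm = (Q : ℤ) ^ 2) →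
        IsCoprime z.re z.im → IsCoprime w.re w.im → z.norm ≤ M → w.norm ≤ M →
        ((2 ^ i : ℕ) : ℤ) ≤ z.norm → z.norm ≤ ((2 * 2 ^ i : ℕ) : ℤ) →
        ((2 ^ j : ℕ) : ℤ) ≤ w.norm → w.norm ≤ ((2 * 2 ^ j : ℕ) : ℤ) →
        (z ^ 4 * cf (AA s δ) (BB s δ) w).im = 0 →
        (∀ j, (bet2 (A1 s) (A2 s) δ z w j ^ 2).im ≠ 0) →
        (∀ R K0 k0 : ℕ, 0 < K0 → 0 < k0 → (K0 : ℤ) ≤ z.norm → (k0 : ℤ) ≤ w.norm →
          M ^ 2 ≤ R ^ 3 * (K0 * k0) → Adm2 M R Q) → m ∈ W) := by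
  have hM0 : (0 : ℝ) < M := by exact_mod_cast hM
  by_cases hT : 2 ^ i * 2 ^ j ≤ M
  · have hT1 : 1 ≤ 2 ^ i * 2 ^ j := Nat.mul_pos (by positivity) (by positivity)
    obtain ⟨R, hR1, hR2, hR3⟩ := exists_R M (2 ^ i * 2 ^ j) hM hT1 hT
    obtain ⟨Qset, hQ1, hQ2⟩ := hsum M R hM hR1 AB AB_card
    obtain ⟨D, hD⟩ : ∃ D : ℝ, D = C3 * (((min (2 * 2 ^ i) M : ℕ) : ℝ) *
      ((min (2 * 2 ^ j) M : ℕ) : ℝ)) ^ (1 / 3 : ℝ) * (M : ℝ) ^ η := ⟨_, rfl⟩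
    have hD0 : 0 ≤ D := by rw [hD]; positivity
    have hK1 : 1 ≤ min (2 * 2 ^ i) M := le_min (Nat.mul_pos (by norm_num) (by positivity)) hM
    have hk1 : 1 ≤ min (2 * 2 ^ j) M := le_min (Nat.mul_pos (by norm_num) (by positivity)) hM
    obtain ⟨W, hW1, hW2⟩ := count_pairs M B hB (min (2 * 2 ^ i) M) (min (2 * 2 ^ j) M) s D hD0
      (fun Q δ hQ hQM hδ => by
        rw [hD]
        exact hfp M hM _ _ hK1 hk1 (min_le_right _ _) (min_le_right _ _) s Q δ hQ hQM hδ) Qset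
    refine ⟨W, ?_, fun _ m z w δ Q hQ hQM hmQ hδ hz hw hzM hwM hz1 hz2 hw1 hw2 hrel hne hadm => ?_⟩
    · have hD1 : D ≤ 2 * C3 * (((2 ^ i * 2 ^ j : ℕ) : ℝ)) ^ (1 / 3 : ℝ) * (M : ℝ) ^ η := by
        rw [hD]
        have h1 : (((min (2 * 2 ^ i) M : ℕ) : ℝ) * ((min (2 * 2 ^ j) M : ℕ) : ℝ)) ≤
            8 * (((2 ^ i * 2 ^ j : ℕ) : ℝ)) := by
          have h2 : min (2 * 2 ^ i) M * min (2 * 2 ^ j) M ≤ (2 * 2 ^ i) * (2 * 2 ^ j) :=
            Nat.mul_le_mul (min_le_left _ _) (min_le_left _ _)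
          have h3 : min (2 * 2 ^ i) M * min (2 * 2 ^ j) M ≤ 8 * (2 ^ i * 2 ^ j) := by
            refine h2.trans ?_
            have : (2 * 2 ^ i) * (2 * 2 ^ j) = 4 * (2 ^ i * 2 ^ j) := by ring
            rw [this]
            exact Nat.mul_le_mul_right _ (by norm_num)
          exact_mod_cast h3
        have h4 : (8 * (((2 ^ i * 2 ^ j : ℕ) : ℝ))) ^ (1 / 3 : ℝ) =
            2 * (((2 ^ i * 2 ^ j : ℕ) : ℝ)) ^ (1 / 3 : ℝ) := by
          rw [Real.mul_rpow (by norm_num) (by positivity)]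
          congr 1
          rw [show (8 : ℝ) = 2 ^ (3 : ℕ) by norm_num, ← Real.rpow_natCast, ← Real.rpow_mul
            (by norm_num)]
          norm_num
        have h5 := Real.rpow_le_rpow (by positivity) h1 (by norm_num : (0 : ℝ) ≤ 1 / 3)
        rw [h4] at h5
        calc C3 * (((min (2 * 2 ^ i) M : ℕ) : ℝ) *
            ((min (2 * 2 ^ j) M : ℕ) : ℝ)) ^ (1 / 3 : ℝ) * (M : ℝ) ^ η ≤
            C3 * (2 * (((2 ^ i * 2 ^ j : ℕ) : ℝ)) ^ (1 / 3 : ℝ)) * (M : ℝ) ^ η := by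
              apply mul_le_mul_of_nonneg_right _ (by positivity)
              exact mul_le_mul_of_nonneg_left h5 hC3.le
          _ = 2 * C3 * (((2 ^ i * 2 ^ j : ℕ) : ℝ)) ^ (1 / 3 : ℝ) * (M : ℝ) ^ η := by ring
      calc (W.card : ℝ) ≤ Qset.card * (B : ℝ) ^ 3 * D := hW1
        _ ≤ (C2 * R * (M : ℝ) ^ η) * (B : ℝ) ^ 3 *
            (2 * C3 * (((2 ^ i * 2 ^ j : ℕ) : ℝ)) ^ (1 / 3 : ℝ) * (M : ℝ) ^ η) := by
            apply mul_le_mul _ hD1 hD0 (by positivity)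
            exact mul_le_mul_of_nonneg_right hQ1 (by positivity)
        _ = (R * (((2 ^ i * 2 ^ j : ℕ) : ℝ)) ^ (1 / 3 : ℝ)) *
            (2 * C2 * C3 * (M : ℝ) ^ η * (M : ℝ) ^ η * (B : ℝ) ^ 3) := by ring
        _ ≤ (2 * (M : ℝ) ^ (2 / 3 : ℝ)) *
            (2 * C2 * C3 * (M : ℝ) ^ η * (M : ℝ) ^ η * (B : ℝ) ^ 3) :=
            mul_le_mul_of_nonneg_right hR3 (by positivity)
        _ = 4 * C2 * C3 * (M : ℝ) ^ (2 / 3 : ℝ) * (M : ℝ) ^ η * (M : ℝ) ^ η * (B : ℝ) ^ 3 := by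
            ring
    · obtain ⟨g, x, y, n1, n2, n3, p, hp, hg, hy, hx, h1, h2, h3, c1, c2, c3, c4, c5, c6, hd,
        i1, i2, i3, rfl⟩ := hadm R (2 ^ i) (2 ^ j) (by positivity) (by positivity) hz1 hw1 hR2
      have hmem : n1 * n2 * n3 ∈ Qset := by
        have := hQ2 g x y n1 n2 n3 1 p hp hg hy hx h1 h2 h3 one_pos c1 c2 c3 c4 c5 c6 hd
          (by simpa using i1) (by simpa using i2) (by simpa using i3)
        simpa using this
      refine hW2 m z w δ _ hmem hQ hQM hmQ hδ hz hw ?_ ?_ hrel hne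
      · rw [Nat.cast_min]
        exact le_min hz2 hzM
      · rw [Nat.cast_min]
        exact le_min hw2 hwM
  · refine ⟨∅, ?_, fun h => absurd h hT⟩
    simp only [Finset.card_empty, Nat.cast_zero]
    positivity

theorem norm_dyadic {x : GaussianInt} (h : 0 < x.norm) : ∃ i : ℕ,
    ((2 ^ i : ℕ) : ℤ) ≤ x.norm ∧ x.norm ≤ ((2 * 2 ^ i : ℕ) : ℤ) ∧ i = Nat.log 2 x.norm.toNat := by
  have h1 : (x.norm.toNat : ℤ) = x.norm := Int.toNat_of_nonneg h.le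
  refine ⟨Nat.log 2 x.norm.toNat, ?_, ?_, rfl⟩
  · rw [← h1]
    have h2 : 2 ^ Nat.log 2 x.norm.toNat ≤ x.norm.toNat := Nat.pow_log_le_self 2 (by omega)
    rw [Int.toNat_natCast]
    exact_mod_cast h2
  · rw [← h1]
    have h2 : x.norm.toNat < 2 ^ (Nat.log 2 x.norm.toNat + 1) :=
      Nat.lt_pow_succ_log_self (by norm_num) _
    rw [pow_succ, mul_comm] at h2
    rw [Int.toNat_natCast]
    exact_mod_cast h2.le

theorem centres5 (ε : ℝ) (hε : 0 < ε) : ∃ C : ℝ, 0 < C ∧ ∀ (M B : ℕ), 1 ≤ M →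
    (∀ Q, 0 < Q → Q ≤ M → 4 * (Q ^ 2).divisors.card ^ 4 ≤ B) →
    ∃ W : Finset ℕ, (W.card : ℝ) ≤ C * (M : ℝ) ^ (2 / 3 + ε) * (B : ℝ) ^ 5 ∧
      ∀ m, 0 < m → m ≤ M → Ctr m → m ∈ W := by
  classical
  obtain ⟨C2, hC2, hsum⟩ := sumQ (ε / 2) (by positivity)
  obtain ⟨C3, hC3, hfp⟩ := few_pairs (ε / 2) (by positivity)
  refine ⟨200 + 24 * C2 * C3, by positivity, fun M B hM hB => ?_⟩
  have hM0 : (0 : ℝ) < M := by exact_mod_cast hM
  have hM1 : (1 : ℝ) ≤ M := by exact_mod_cast hM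
  have hlog := log_le_B hM hB
  have hB1 : (1 : ℝ) ≤ B := by
    have : 1 ≤ B := by omega
    exact_mod_cast this
  obtain ⟨R1, hR11, hR12, hR13⟩ := exists_R M 1 hM le_rfl hM
  obtain ⟨W1, hW11, hW12⟩ := count_cells M B hB (Finset.Icc 1 R1)
  have hbox := fun (s : Fin 6) (i j : ℕ) => box hC2 hC3 hsum hfp hM hB s i j
  choose W hWa hWb using hbox
  obtain ⟨E, hE⟩ : ∃ E : ℝ, E = 4 * C2 * C3 * (M : ℝ) ^ (2 / 3 : ℝ) * (M : ℝ) ^ (ε / 2) *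
        (M : ℝ) ^ (ε / 2) * (B : ℝ) ^ 3 := ⟨_, rfl⟩
  have hE0 : 0 ≤ E := by rw [hE]; positivity
  have hEM : E = 4 * C2 * C3 * (M : ℝ) ^ (2 / 3 + ε) * (B : ℝ) ^ 3 := by
    have h1 : (M : ℝ) ^ (2 / 3 + ε) = (M : ℝ) ^ (2 / 3 : ℝ) * (M : ℝ) ^ (ε / 2) *
        (M : ℝ) ^ (ε / 2) := by
      rw [← Real.rpow_add hM0, ← Real.rpow_add hM0]
      congr 1
      ring
    rw [hE, h1]
    ring
  let I : Finset (Fin 6 × ℕ × ℕ) :=
    Finset.univ ×ˢ (Finset.range (Nat.log 2 M + 1) ×ˢ Finset.range (Nat.log 2 M + 1))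
  refine ⟨W1 ∪ I.biUnion fun x => W x.1 x.2.1 x.2.2, ?_, ?_⟩
  · have h1 : ((W1 ∪ I.biUnion fun x => W x.1 x.2.1 x.2.2).card : ℝ) ≤
        (W1.card : ℝ) + ∑ x ∈ I, ((W x.1 x.2.1 x.2.2).card : ℝ) := by
      have h2 := Finset.card_union_le W1 (I.biUnion fun x => W x.1 x.2.1 x.2.2)
      have h3 : (I.biUnion fun x => W x.1 x.2.1 x.2.2).card ≤
          ∑ x ∈ I, (W x.1 x.2.1 x.2.2).card := Finset.card_biUnion_le
      exact_mod_cast h2.trans (Nat.add_le_add_left h3 _)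
    have h2 : ∑ x ∈ I, ((W x.1 x.2.1 x.2.2).card : ℝ) ≤ 6 * (B : ℝ) ^ 2 * E := by
      refine (Finset.sum_le_card_nsmul I _ E fun x _ => by rw [hE]; exact hWa _ _ _).trans ?_
      rw [nsmul_eq_mul]
      apply mul_le_mul_of_nonneg_right _ hE0
      have h3 : I.card = 6 * ((Nat.log 2 M + 1) * (Nat.log 2 M + 1)) := by
        simp [I, Finset.card_product]
      have h4 : I.card ≤ 6 * B ^ 2 := by
        rw [h3, pow_two]
        exact Nat.mul_le_mul_left _ (Nat.mul_le_mul hlog hlog)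
      exact_mod_cast h4
    have h3 : (W1.card : ℝ) ≤ 200 * (M : ℝ) ^ (2 / 3 + ε) * (B : ℝ) ^ 5 := by
      have h4 : (W1.card : ℝ) ≤ 100 * R1 * (B : ℝ) ^ 3 := by
        rw [Nat.card_Icc, Nat.add_sub_cancel] at hW11
        exact_mod_cast hW11
      have h5 : (R1 : ℝ) ≤ 2 * (M : ℝ) ^ (2 / 3 : ℝ) := by simpa using hR13
      have h6 : (M : ℝ) ^ (2 / 3 : ℝ) ≤ (M : ℝ) ^ (2 / 3 + ε) :=
        Real.rpow_le_rpow_of_exponent_le hM1 (by linarith)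
      have h7 : (B : ℝ) ^ 3 ≤ (B : ℝ) ^ 5 := pow_le_pow_right₀ hB1 (by norm_num)
      calc (W1.card : ℝ) ≤ 100 * R1 * (B : ℝ) ^ 3 := h4
        _ ≤ 100 * (2 * (M : ℝ) ^ (2 / 3 + ε)) * (B : ℝ) ^ 5 := by
            gcongr
            linarith
        _ = 200 * (M : ℝ) ^ (2 / 3 + ε) * (B : ℝ) ^ 5 := by ring
    calc ((W1 ∪ I.biUnion fun x => W x.1 x.2.1 x.2.2).card : ℝ) ≤
        200 * (M : ℝ) ^ (2 / 3 + ε) * (B : ℝ) ^ 5 + 6 * (B : ℝ) ^ 2 * E :=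
          h1.trans (add_le_add h3 h2)
      _ = (200 + 24 * C2 * C3) * (M : ℝ) ^ (2 / 3 + ε) * (B : ℝ) ^ 5 := by
          rw [hEM]
          ring
  · intro m hm hmM hc
    rw [Finset.mem_union]
    rcases centre4 hm hmM hc with ⟨i, γ, δ, Q, hQ0, hmQ, hδ, hQ3, hco, hrel, hne⟩ |
      ⟨s, z, w, δ, Q, hQ0, hmQ, hδ, hz, hw, hrel, hne, hadm⟩
    · left
      have hγ : 0 < γ.norm := norm_pos_of hco
      have hQm : Q ≤ m := by
        have h1 : (Q : ℤ) ≤ m := by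
          rw [hmQ]
          exact le_mul_of_one_le_left (by positivity) hγ
        exact_mod_cast h1
      refine hW12 m i γ δ Q (Finset.mem_Icc.2 ⟨hQ0, ?_⟩) hQ0 (hQm.trans hmM) hmQ hδ hco hrel hne
      have h1 : Q ^ 3 ≤ R1 ^ 3 := by
        refine hQ3.trans ?_
        simpa using hR12
      exact (Nat.pow_le_pow_iff_left (by norm_num)).1 h1
    · right
      have hzp := norm_pos_of hz
      have hwp := norm_pos_of hw
      have hQ0' : (1 : ℤ) ≤ Q := by exact_mod_cast hQ0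
      have hzwQ : z.norm * w.norm ≤ m := by
        rw [hmQ]
        exact le_mul_of_one_le_right (by positivity) hQ0'
      have hmM' : (m : ℤ) ≤ M := by exact_mod_cast hmM
      have hzM : z.norm ≤ M := by
        refine le_trans ?_ (hzwQ.trans hmM')
        exact le_mul_of_one_le_right hzp.le hwp
      have hwM : w.norm ≤ M := by
        refine le_trans ?_ (hzwQ.trans hmM')
        exact le_mul_of_one_le_left hwp.le hzp
      have hQM : Q ≤ M := by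
        have h1 : (Q : ℤ) ≤ m := by
          rw [hmQ]
          exact le_mul_of_one_le_left (by positivity) (by nlinarith)
        exact_mod_cast h1.trans hmM'
      obtain ⟨i, hi1, hi2, hi3⟩ := norm_dyadic hzp
      obtain ⟨j, hj1, hj2, hj3⟩ := norm_dyadic hwp
      have hT : 2 ^ i * 2 ^ j ≤ M := by
        have h1 : (((2 ^ i : ℕ) : ℤ)) * (((2 ^ j : ℕ) : ℤ)) ≤ z.norm * w.norm :=
          mul_le_mul hi1 hj1 (by positivity) hzp.le
        exact_mod_cast h1.trans (hzwQ.trans hmM')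
      rw [Finset.mem_biUnion]
      refine ⟨(s, i, j), ?_, ?_⟩
      · refine Finset.mem_product.2 ⟨Finset.mem_univ _, Finset.mem_product.2 ⟨?_, ?_⟩⟩
        · rw [Finset.mem_range, hi3]
          have : Nat.log 2 z.norm.toNat ≤ Nat.log 2 M := Nat.log_mono_right (by omega)
          exact Nat.lt_succ_of_le this
        · rw [Finset.mem_range, hj3]
          have : Nat.log 2 w.norm.toNat ≤ Nat.log 2 M := Nat.log_mono_right (by omega)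
          exact Nat.lt_succ_of_le this
      · exact hWb s i j hT m z w δ Q hQ0 hQM hmQ hδ hz hw hzM hwM hi1 hi2 hj1 hj2 hrel hne hadm

/-- from the centres to the magic squares -/
theorem mag_of (N B : ℕ) (hB : ∀ Q, 0 < Q → Q ≤ Nat.sqrt N → 4 * (Q ^ 2).divisors.card ^ 4 ≤ B)
    (W : Finset ℕ) (hW2 : ∀ m, 0 < m → m ≤ Nat.sqrt N → Ctr m → m ∈ W) :
    (Mag N).Finite ∧ (Mag N).ncard ≤ W.card * B ^ 2 := by
  classical
  have hS : ∀ m : ℕ, ∃ A : Finset ℤ, (0 < m → m ≤ Nat.sqrt N → A.card ≤ B) ∧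
      (0 < m → ∀ β : GaussianInt, β.norm = (m : ℤ) ^ 2 → (β ^ 2).im ∈ A) := by
    intro m
    by_cases h : 0 < m
    · obtain ⟨S, h1, h2⟩ := div_set (m ^ 2) (by positivity)
      refine ⟨S.image fun β => (β ^ 2).im, fun _ hm => ?_, fun _ β hβ => ?_⟩
      · exact Finset.card_image_le.trans (h1.trans (hB m h hm))
      · apply Finset.mem_image_of_mem
        apply h2
        rw [hβ]
        push_cast
        rfl
    · exact ⟨∅, fun h' => absurd h' h, fun h' => absurd h' h⟩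
  choose A hA1 hA2 using hS
  set F : Finset (ℤ × ℤ × ℤ) := (W.filter fun m => 0 < m ∧ m ≤ Nat.sqrt N).biUnion fun m =>
    (A m ×ˢ A m).image fun x => ((m : ℤ) ^ 2 - x.1 - x.2, x.1, x.2) with hF
  have hsub : Mag N ⊆ F := by
    rintro c hc
    obtain ⟨m, h1, h2, h3, h4, ⟨β, h5, h6⟩, β', h7, h8⟩ := mag_centre hc
    rw [hF, Finset.coe_biUnion, Set.mem_iUnion₂]
    refine ⟨m, ?_, ?_⟩
    · rw [Finset.mem_coe, Finset.mem_filter]
      exact ⟨hW2 m h1 h2 h3, h1, h2⟩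
    · rw [Finset.mem_coe, Finset.mem_image]
      refine ⟨(c.2.1, c.2.2), Finset.mem_product.2 ⟨?_, ?_⟩, ?_⟩
      · have := hA2 m h1 β h5
        rwa [h6] at this
      · have := hA2 m h1 β' h7
        rwa [h8] at this
      · simp only
        rw [← h4]
  refine ⟨F.finite_toSet.subset hsub, ?_⟩
  have h1 := Set.ncard_le_ncard hsub F.finite_toSet
  rw [Set.ncard_coe_finset] at h1
  refine h1.trans ?_
  have h2 : F.card ≤ (W.filter fun m => 0 < m ∧ m ≤ Nat.sqrt N).card * B ^ 2 := by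
    rw [hF]
    apply Finset.card_biUnion_le_card_mul
    intro m hm
    have hm' := (Finset.mem_filter.1 hm).2
    refine Finset.card_image_le.trans ?_
    rw [Finset.card_product, pow_two]
    exact Nat.mul_le_mul (hA1 m hm'.1 hm'.2) (hA1 m hm'.1 hm'.2)
  exact h2.trans (Nat.mul_le_mul_right _ (Finset.card_filter_le _ _))

theorem main5 (ε : ℝ) (hε : 0 < ε) : ∃ C : ℝ,
    (∀ N : ℕ, 1 ≤ N → (Mag N).Finite ∧ ((Mag N).ncard : ℝ) ≤ C * (N : ℝ) ^ (1 / 3 + ε)) ∧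
    ∀ M : ℕ, 1 ≤ M → (({m : ℕ | 1 ≤ m ∧ m ≤ M ∧ Ctr m} : Set ℕ).ncard : ℝ) ≤
      C * (M : ℝ) ^ (2 / 3 + ε) := by
  obtain ⟨C, hC, hB⟩ := exists_B (ε / 14) (by positivity)
  obtain ⟨D, hD, hW⟩ := centres5 (ε / 2) (by positivity)
  refine ⟨D * C ^ 7 + D * C ^ 5, fun N hN => ?_, fun M hM => ?_⟩
  · have hs : 1 ≤ Nat.sqrt N := Nat.sqrt_pos.2 hN
    obtain ⟨B, hB1, hB2⟩ := hB (Nat.sqrt N) hs
    obtain ⟨W, hW1, hW2⟩ := hW (Nat.sqrt N) B hs hB1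
    obtain ⟨hfin, hcard⟩ := mag_of N B hB1 W hW2
    refine ⟨hfin, ?_⟩
    have hN0 : (1 : ℝ) ≤ N := by exact_mod_cast hN
    have hs0 : (0 : ℝ) < Nat.sqrt N := by exact_mod_cast hs
    have h1 : ((Mag N).ncard : ℝ) ≤ (W.card : ℝ) * (B : ℝ) ^ 2 := by
      exact_mod_cast hcard
    have h3 : ((Nat.sqrt N : ℕ) : ℝ) ≤ (N : ℝ) ^ (1 / 2 : ℝ) := by
      rw [← Real.sqrt_eq_rpow]
      exact Real.nat_sqrt_le_real_sqrt
    have h4 : (B : ℝ) ^ 7 ≤ C ^ 7 * ((Nat.sqrt N : ℕ) : ℝ) ^ (ε / 2) := by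
      refine (pow_le_pow_left₀ (by positivity) hB2 7).trans (le_of_eq ?_)
      rw [mul_pow, ← Real.rpow_natCast (((Nat.sqrt N : ℕ) : ℝ) ^ (ε / 14)),
        ← Real.rpow_mul hs0.le]
      congr 2
      push_cast
      ring
    have h5 : ((Nat.sqrt N : ℕ) : ℝ) ^ (2 / 3 + ε / 2) * ((Nat.sqrt N : ℕ) : ℝ) ^ (ε / 2) ≤
        (N : ℝ) ^ (1 / 3 + ε) := by
      rw [← Real.rpow_add hs0]
      refine (Real.rpow_le_rpow hs0.le h3 (by positivity)).trans ?_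
      rw [← Real.rpow_mul (by positivity)]
      apply Real.rpow_le_rpow_of_exponent_le hN0
      linarith
    calc ((Mag N).ncard : ℝ) ≤ (W.card : ℝ) * (B : ℝ) ^ 2 := h1
      _ ≤ (D * ((Nat.sqrt N : ℕ) : ℝ) ^ (2 / 3 + ε / 2) * (B : ℝ) ^ 5) * (B : ℝ) ^ 2 :=
          mul_le_mul_of_nonneg_right hW1 (by positivity)
      _ = D * ((Nat.sqrt N : ℕ) : ℝ) ^ (2 / 3 + ε / 2) * (B : ℝ) ^ 7 := by ring
      _ ≤ D * ((Nat.sqrt N : ℕ) : ℝ) ^ (2 / 3 + ε / 2) *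
          (C ^ 7 * ((Nat.sqrt N : ℕ) : ℝ) ^ (ε / 2)) :=
          mul_le_mul_of_nonneg_left h4 (by positivity)
      _ = D * C ^ 7 * (((Nat.sqrt N : ℕ) : ℝ) ^ (2 / 3 + ε / 2) *
          ((Nat.sqrt N : ℕ) : ℝ) ^ (ε / 2)) := by ring
      _ ≤ D * C ^ 7 * (N : ℝ) ^ (1 / 3 + ε) :=
          mul_le_mul_of_nonneg_left h5 (by positivity)
      _ ≤ (D * C ^ 7 + D * C ^ 5) * (N : ℝ) ^ (1 / 3 + ε) := by
          apply mul_le_mul_of_nonneg_right _ (by positivity)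
          have : 0 ≤ D * C ^ 5 := by positivity
          linarith
  · obtain ⟨B, hB1, hB2⟩ := hB M hM
    obtain ⟨W, hW1, hW2⟩ := hW M B hM hB1
    have hM0 : (1 : ℝ) ≤ M := by exact_mod_cast hM
    have hMp : (0 : ℝ) < M := by linarith
    have hsub : ({m : ℕ | 1 ≤ m ∧ m ≤ M ∧ Ctr m} : Set ℕ) ⊆ W := by
      rintro m ⟨h1, h2, h3⟩
      exact Finset.mem_coe.2 (hW2 m h1 h2 h3)
    have h0 := Set.ncard_le_ncard hsub W.finite_toSet
    rw [Set.ncard_coe_finset] at h0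
    have h1 : (({m : ℕ | 1 ≤ m ∧ m ≤ M ∧ Ctr m} : Set ℕ).ncard : ℝ) ≤ (W.card : ℝ) := by
      exact_mod_cast h0
    have h4 : (B : ℝ) ^ 5 ≤ C ^ 5 * (M : ℝ) ^ (ε / 2) := by
      refine (pow_le_pow_left₀ (by positivity) hB2 5).trans ?_
      rw [mul_pow, ← Real.rpow_natCast ((M : ℝ) ^ (ε / 14)), ← Real.rpow_mul hMp.le]
      apply mul_le_mul_of_nonneg_left _ (by positivity)
      apply Real.rpow_le_rpow_of_exponent_le hM0
      push_cast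
      linarith
    calc (({m : ℕ | 1 ≤ m ∧ m ≤ M ∧ Ctr m} : Set ℕ).ncard : ℝ) ≤ (W.card : ℝ) := h1
      _ ≤ D * (M : ℝ) ^ (2 / 3 + ε / 2) * (B : ℝ) ^ 5 := hW1
      _ ≤ D * (M : ℝ) ^ (2 / 3 + ε / 2) * (C ^ 5 * (M : ℝ) ^ (ε / 2)) :=
          mul_le_mul_of_nonneg_left h4 (by positivity)
      _ = D * C ^ 5 * ((M : ℝ) ^ (2 / 3 + ε / 2) * (M : ℝ) ^ (ε / 2)) := by ring
      _ = D * C ^ 5 * (M : ℝ) ^ (2 / 3 + ε) := by
          rw [← Real.rpow_add hMp]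
          congr 2
          ring
      _ ≤ (D * C ^ 7 + D * C ^ 5) * (M : ℝ) ^ (2 / 3 + ε) := by
          apply mul_le_mul_of_nonneg_right _ (by positivity)
          have : 0 ≤ D * C ^ 7 := by positivity
          linarith

end Pool.H68.MT
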