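import Pool.Agent.H68.MT.Pair
import Pool.Agent.H68.MS.Sel

/-!
# The relation in two common cells
-/

set_option autoImplicit false

namespace Pool.H68.MT

open Pool.H68.MS

/-- the three numbers with two cells and cofactors -/
def bet2 (i1 i2 : Fin 10) (δ : Fin 3 → GaussianInt) (z w : GaussianInt) (j : Fin 3) :
    GaussianInt :=
  z ^ (pat i1 j) * (star z) ^ (2 - pat i1 j) * (w ^ (pat i2 j) * (star w) ^ (2 - pat i2 j)) * δ j

/-- first coefficient -/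
def cA (a b : ℕ) (δ : GaussianInt) : GaussianInt :=
  if a = 2 ∧ b = 2 then δ ^ 2 else if a = 0 ∧ b = 0 then -(star δ) ^ 2 else 0

/-- second coefficient -/
def cB (a b : ℕ) (δ : GaussianInt) : GaussianInt :=
  if a = 2 ∧ b = 0 then δ ^ 2 else if a = 0 ∧ b = 2 then -(star δ) ^ 2 else 0

theorem im_star (x : GaussianInt) : (star x).im = -x.im := rfl

theorem im_add' (x y : GaussianInt) : (x + y).im = x.im + y.im := rfl

theorem im_sub' (x y : GaussianInt) : (x - y).im = x.im - y.im := by simp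

theorem im_cell {a b : ℕ} (ha : a = 0 ∨ a = 2) (hb : b = 0 ∨ b = 2) (z w δ : GaussianInt) :
    ((z ^ a * (star z) ^ (2 - a) * (w ^ b * (star w) ^ (2 - b)) * δ) ^ 2).im =
      (z ^ 4 * cf (cA a b δ) (cB a b δ) w).im := by
  rcases ha with rfl | rfl <;> rcases hb with rfl | rfl
  · have h : z ^ 4 * cf (cA 0 0 δ) (cB 0 0 δ) w =
        -star ((z ^ 0 * (star z) ^ (2 - 0) * (w ^ 0 * (star w) ^ (2 - 0)) * δ) ^ 2) := by
      simp [cA, cB, cf]
      ring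
    rw [h, Zsqrtd.im_neg, im_star, neg_neg]
  · have h : z ^ 4 * cf (cA 0 2 δ) (cB 0 2 δ) w =
        -star ((z ^ 0 * (star z) ^ (2 - 0) * (w ^ 2 * (star w) ^ (2 - 2)) * δ) ^ 2) := by
      simp [cA, cB, cf]
      ring
    rw [h, Zsqrtd.im_neg, im_star, neg_neg]
  · congr 1
    simp [cA, cB, cf]
    ring
  · congr 1
    simp [cA, cB, cf]
    ring

theorem A_pat : ∀ (s : Fin 6) (j : Fin 3), (pat (A1 s) j = 0 ∨ pat (A1 s) j = 2) ∧
    (pat (A2 s) j = 0 ∨ pat (A2 s) j = 2) := by decide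

/-- the coefficient of the relation -/
def AA (s : Fin 6) (δ : Fin 3 → GaussianInt) : GaussianInt :=
  cA (pat (A1 s) 0) (pat (A2 s) 0) (δ 0) + cA (pat (A1 s) 1) (pat (A2 s) 1) (δ 1) -
    cA (pat (A1 s) 2) (pat (A2 s) 2) (δ 2)

/-- the coefficient of the relation -/
def BB (s : Fin 6) (δ : Fin 3 → GaussianInt) : GaussianInt :=
  cB (pat (A1 s) 0) (pat (A2 s) 0) (δ 0) + cB (pat (A1 s) 1) (pat (A2 s) 1) (δ 1) -
    cB (pat (A1 s) 2) (pat (A2 s) 2) (δ 2)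

theorem rel_AB (s : Fin 6) (δ : Fin 3 → GaussianInt) (z w : GaussianInt) :
    (z ^ 4 * cf (AA s δ) (BB s δ) w).im =
      (bet2 (A1 s) (A2 s) δ z w 0 ^ 2).im + (bet2 (A1 s) (A2 s) δ z w 1 ^ 2).im -
      (bet2 (A1 s) (A2 s) δ z w 2 ^ 2).im := by
  unfold bet2
  rw [im_cell (A_pat s 0).1 (A_pat s 0).2, im_cell (A_pat s 1).1 (A_pat s 1).2,
    im_cell (A_pat s 2).1 (A_pat s 2).2, ← im_add', ← im_sub']
  congr 1
  unfold cf AA BB
  ring

/-- a sum of two numbers of the norm of the third -/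
theorem two_one {X c d : GaussianInt} {N : ℤ} (hN : N ≠ 0) (hX : X.norm = N) (hc : c.norm = N)
    (hd : d.norm = N) : X.norm ≠ (c + d).norm ∧ (c + d).norm ≤ 4 * N ∧ X ≠ 0 := by
  refine ⟨fun h => ?_, ?_, ?_⟩
  · rw [hX] at h
    rw [Zsqrtd.norm_def] at hc hd h
    apply hN
    exact three_zero (x0 := c.re) (y0 := c.im) (x1 := d.re) (y1 := d.im) (x2 := -(c.re + d.re))
      (y2 := -(c.im + d.im)) (N := N) (by linarith [sq c.re, sq c.im])
      (by linarith [sq d.re, sq d.im])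
      (by
        simp at h
        linear_combination -h) (by ring) (by ring)
  · have := norm_add_le' c d
    rw [hc, hd] at this
    linarith
  · intro h0
    rw [h0] at hX
    simp at hX
    exact hN hX.symm

theorem nsq {x : GaussianInt} {Q : ℤ} (h : x.norm = Q ^ 2) : (x ^ 2).norm = Q ^ 4 := by
  rw [norm_pow', h]
  ring

theorem nsq' {x : GaussianInt} {Q : ℤ} (h : x.norm = Q ^ 2) : ((star x) ^ 2).norm = Q ^ 4 := by
  rw [norm_pow', Zsqrtd.norm_conj, h]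
  ring

/-- the properties of the coefficients -/
theorem AB_prop (s : Fin 6) (δ : Fin 3 → GaussianInt) {Q : ℤ} (hQ : Q ≠ 0)
    (hδ : ∀ j, (δ j).norm = Q ^ 2) : (AA s δ).norm ≠ (BB s δ).norm ∧
      (AA s δ).norm ≤ 4 * Q ^ 4 ∧ (BB s δ).norm ≤ 4 * Q ^ 4 ∧
      ((∃ z w : GaussianInt, (z ^ 4 * cf (AA s δ) (BB s δ) w).im = 0 ∧
        ∀ j, (bet2 (A1 s) (A2 s) δ z w j ^ 2).im ≠ 0) → AA s δ ≠ 0 ∧ BB s δ ≠ 0) := by
  have hN : Q ^ 4 ≠ 0 := pow_ne_zero 4 hQ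
  have hN0 : 0 ≤ Q ^ 4 := by positivity
  have n0 := nsq (hδ 0)
  have n1 := nsq (hδ 1)
  have n2 := nsq (hδ 2)
  have n0' := nsq' (hδ 0)
  have n1' := nsq' (hδ 1)
  have n2' := nsq' (hδ 2)
  have nn : ∀ x : GaussianInt, x.norm = Q ^ 4 → (-x).norm = Q ^ 4 := fun x h => by
    rw [Zsqrtd.norm_neg, h]
  have key : ∀ z w : GaussianInt, (z ^ 4 * cf (AA s δ) (BB s δ) w).im = 0 →
      (∀ j, (bet2 (A1 s) (A2 s) δ z w j ^ 2).im ≠ 0) → ∀ j : Fin 3,
      AA s δ ≠ cA (pat (A1 s) j) (pat (A2 s) j) (δ j) ∨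
      BB s δ ≠ cB (pat (A1 s) j) (pat (A2 s) j) (δ j) := by
    intro z w h1 h2 j
    by_contra hcon
    push Not at hcon
    rw [hcon.1, hcon.2, ← im_cell (A_pat s j).1 (A_pat s j).2] at h1
    exact h2 j h1
  have key' : ∀ z w : GaussianInt, (z ^ 4 * cf (AA s δ) (BB s δ) w).im = 0 →
      (∀ j, (bet2 (A1 s) (A2 s) δ z w j ^ 2).im ≠ 0) → ∀ j : Fin 3,
      AA s δ ≠ -cA (pat (A1 s) j) (pat (A2 s) j) (δ j) ∨
      BB s δ ≠ -cB (pat (A1 s) j) (pat (A2 s) j) (δ j) := by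
    intro z w h1 h2 j
    by_contra hcon
    push Not at hcon
    have e : z ^ 4 * cf (AA s δ) (BB s δ) w = -(z ^ 4 *
        cf (cA (pat (A1 s) j) (pat (A2 s) j) (δ j)) (cB (pat (A1 s) j) (pat (A2 s) j) (δ j)) w) := by
      rw [hcon.1, hcon.2]
      unfold cf
      ring
    rw [e, Zsqrtd.im_neg, ← im_cell (A_pat s j).1 (A_pat s j).2] at h1
    exact h2 j (neg_eq_zero.1 h1)
  fin_cases s
  · -- A = δ0², B = δ1² - δ2²
    have eA : AA 0 δ = δ 0 ^ 2 := by simp [AA, cA, pat, A1, A2]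
    have eB : BB 0 δ = δ 1 ^ 2 + -δ 2 ^ 2 := by simp [BB, cB, pat, A1, A2, sub_eq_add_neg]
    obtain ⟨t1, t2, t3⟩ := two_one hN n0 n1 (nn _ n2)
    refine ⟨?_, ?_, ?_, ?_⟩
    · change (AA 0 δ).norm ≠ (BB 0 δ).norm
      rw [eA, eB]; exact t1
    · change (AA 0 δ).norm ≤ _
      rw [eA, n0]; linarith
    · change (BB 0 δ).norm ≤ _
      rw [eB]; exact t2
    · rintro ⟨z, w, h1, h2⟩
      refine ⟨?_, fun h0 => ?_⟩
      · change AA 0 δ ≠ 0
        rw [eA]; exact t3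
      · rcases key z w h1 h2 0 with h | h
        · exact h (by change AA 0 δ = _; rw [eA]; simp [cA, pat, A1, A2])
        · exact h (by rw [h0]; simp [cB, pat, A1, A2])
  · -- A = δ0², B = δ1² + conj δ2²
    have eA : AA 1 δ = δ 0 ^ 2 := by simp [AA, cA, pat, A1, A2]
    have eB : BB 1 δ = δ 1 ^ 2 + (star (δ 2)) ^ 2 := by simp [BB, cB, pat, A1, A2]
    obtain ⟨t1, t2, t3⟩ := two_one hN n0 n1 n2'
    refine ⟨?_, ?_, ?_, ?_⟩
    · change (AA 1 δ).norm ≠ (BB 1 δ).norm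
      rw [eA, eB]; exact t1
    · change (AA 1 δ).norm ≤ _
      rw [eA, n0]; linarith
    · change (BB 1 δ).norm ≤ _
      rw [eB]; exact t2
    · rintro ⟨z, w, h1, h2⟩
      refine ⟨?_, fun h0 => ?_⟩
      · change AA 1 δ ≠ 0
        rw [eA]; exact t3
      · rcases key z w h1 h2 0 with h | h
        · exact h (by change AA 1 δ = _; rw [eA]; simp [cA, pat, A1, A2])
        · exact h (by rw [h0]; simp [cB, pat, A1, A2])
  · -- A = δ0² - δ2², B = δ1²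
    have eA : AA 2 δ = δ 0 ^ 2 + -δ 2 ^ 2 := by simp [AA, cA, pat, A1, A2, sub_eq_add_neg]
    have eB : BB 2 δ = δ 1 ^ 2 := by simp [BB, cB, pat, A1, A2]
    obtain ⟨t1, t2, t3⟩ := two_one hN n1 n0 (nn _ n2)
    refine ⟨?_, ?_, ?_, ?_⟩
    · change (AA 2 δ).norm ≠ (BB 2 δ).norm
      rw [eA, eB]; exact t1.symm
    · change (AA 2 δ).norm ≤ _
      rw [eA]; exact t2
    · change (BB 2 δ).norm ≤ _
      rw [eB, n1]; linarith
    · rintro ⟨z, w, h1, h2⟩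
      refine ⟨fun h0 => ?_, ?_⟩
      · rcases key z w h1 h2 1 with h | h
        · exact h (by rw [h0]; simp [cA, pat, A1, A2])
        · exact h (by change BB 2 δ = _; rw [eB]; simp [cB, pat, A1, A2])
      · change BB 2 δ ≠ 0
        rw [eB]; exact t3
  · -- A = δ0² + conj δ2², B = δ1²
    have eA : AA 3 δ = δ 0 ^ 2 + (star (δ 2)) ^ 2 := by simp [AA, cA, pat, A1, A2]
    have eB : BB 3 δ = δ 1 ^ 2 := by simp [BB, cB, pat, A1, A2]
    obtain ⟨t1, t2, t3⟩ := two_one hN n1 n0 n2'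
    refine ⟨?_, ?_, ?_, ?_⟩
    · change (AA 3 δ).norm ≠ (BB 3 δ).norm
      rw [eA, eB]; exact t1.symm
    · change (AA 3 δ).norm ≤ _
      rw [eA]; exact t2
    · change (BB 3 δ).norm ≤ _
      rw [eB, n1]; linarith
    · rintro ⟨z, w, h1, h2⟩
      refine ⟨fun h0 => ?_, ?_⟩
      · rcases key z w h1 h2 1 with h | h
        · exact h (by rw [h0]; simp [cA, pat, A1, A2])
        · exact h (by change BB 3 δ = _; rw [eB]; simp [cB, pat, A1, A2])
      · change BB 3 δ ≠ 0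
        rw [eB]; exact t3
  · -- A = δ0² + δ1², B = -δ2²
    have eA : AA 4 δ = δ 0 ^ 2 + δ 1 ^ 2 := by simp [AA, cA, pat, A1, A2]
    have eB : BB 4 δ = -δ 2 ^ 2 := by simp [BB, cB, pat, A1, A2]
    obtain ⟨t1, t2, t3⟩ := two_one hN (nn _ n2) n0 n1
    refine ⟨?_, ?_, ?_, ?_⟩
    · change (AA 4 δ).norm ≠ (BB 4 δ).norm
      rw [eA, eB]; exact t1.symm
    · change (AA 4 δ).norm ≤ _
      rw [eA]; exact t2
    · change (BB 4 δ).norm ≤ _
      rw [eB, nn _ n2]; linarith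
    · rintro ⟨z, w, h1, h2⟩
      refine ⟨fun h0 => ?_, ?_⟩
      · rcases key' z w h1 h2 2 with h | h
        · exact h (by rw [h0]; simp [cA, pat, A1, A2])
        · exact h (by change BB 4 δ = _; rw [eB]; simp [cB, pat, A1, A2])
      · change BB 4 δ ≠ 0
        rw [eB]; exact t3
  · -- A = δ0² - conj δ1², B = -δ2²
    have eA : AA 5 δ = δ 0 ^ 2 + -(star (δ 1)) ^ 2 := by simp [AA, cA, pat, A1, A2]
    have eB : BB 5 δ = -δ 2 ^ 2 := by simp [BB, cB, pat, A1, A2]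
    obtain ⟨t1, t2, t3⟩ := two_one hN (nn _ n2) n0 (nn _ n1')
    refine ⟨?_, ?_, ?_, ?_⟩
    · change (AA 5 δ).norm ≠ (BB 5 δ).norm
      rw [eA, eB]; exact t1.symm
    · change (AA 5 δ).norm ≤ _
      rw [eA]; exact t2
    · change (BB 5 δ).norm ≤ _
      rw [eB, nn _ n2]; linarith
    · rintro ⟨z, w, h1, h2⟩
      refine ⟨fun h0 => ?_, ?_⟩
      · rcases key' z w h1 h2 2 with h | h
        · exact h (by rw [h0]; simp [cA, pat, A1, A2])
        · exact h (by change BB 5 δ = _; rw [eB]; simp [cB, pat, A1, A2])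
      · change BB 5 δ ≠ 0
        rw [eB]; exact t3

end Pool.H68.MT
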