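import Pool.Agent.H68.MT.Tens
import Pool.Agent.H68.MS.Form

/-!
# Common zeros of the relation and a form of bidegree (1, 1)

Proof. `L(z, w) = z.re * a(w) + z.im * b(w)` with `a = l 0 * w.re + l 1 * w.im`, `b = l 2 * w.re + l 3 * w.im`.
Put `μ(w) = b(w) - a(w) I = α w + β (star w)` (`α`, `β` in `ℂ`, not both zero). `L(z, w) = 0`
implies that `μ(w)` is a real multiple of `z`, so `H(w) = Im (μ(w) ^ 4 * cf A B w) = 0`, a form of degree 8
in `(w.re, w.im)`. `H` is not the zero form: otherwise, with independent variables `W`, `V` for `w`, `star w`,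
`(α W + β V) ^ 4 (A W ^ 4 + B V ^ 4) = (conj β W + conj α V) ^ 4 (conj B W ^ 4 + conj A V ^ 4)`.
The coefficients of `W ^ 8` and `W ^ 7 V` give `α ^ 4 A = conj β ^ 4 conj B`, `α ^ 3 β A = conj β ^ 3 conj α conj B`,
so `α`, `β` are not zero, `|α| = |β|` and `|A| = |B|`.
So at most 9 directions `w.re : w.im`, at most 18 primitive `w`. For each of them `cf A B w ≠ 0`
(`A.norm ≠ B.norm`), and `Im (z ^ 4 * cf A B w) = 0` is a nonzero quartic form in `z`: at most ten
primitive `z` by `Pool.H68.MS.zeros` (with third coefficient 0).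
-/

set_option autoImplicit false

namespace Pool.H68.MT

open Polynomial ComplexConjugate

/-- the form in two independent variables -/
private noncomputable def FF (α β A B W V : ℂ) : ℂ :=
  (α * W + β * V) ^ 4 * (A * W ^ 4 + B * V ^ 4) -
    (conj β * W + conj α * V) ^ 4 * (conj B * W ^ 4 + conj A * V ^ 4)

private theorem ff_hom (α β A B W V t : ℂ) : FF α β A B (t * W) (t * V) = t ^ 8 * FF α β A B W V := by
  unfold FF
  ring

private theorem ff_conj (α β A B w : ℂ) : FF α β A B w (conj w) =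
    (α * w + β * conj w) ^ 4 * (A * w ^ 4 + B * conj w ^ 4) -
      conj ((α * w + β * conj w) ^ 4 * (A * w ^ 4 + B * conj w ^ 4)) := by
  unfold FF
  simp only [map_mul, map_pow, map_add, Complex.conj_conj]
  ring

private theorem ff_ne (α β A B : ℂ) (hA : A ≠ 0) (hB : B ≠ 0) (hAB : Complex.normSq A ≠ Complex.normSq B)
    (h : ¬ (α = 0 ∧ β = 0)) : ¬ ∀ W V : ℂ, W ≠ V → FF α β A B W V = 0 := by
  intro hz
  have e0 : α ^ 4 * A = conj β ^ 4 * conj B := by
    have h1 := hz 1 0 one_ne_zero
    unfold FF at h1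
    linear_combination h1
  set G : ℂ[X] := (C α + C β * X) ^ 4 * (C A + C B * X ^ 4) -
    (C (conj β) + C (conj α) * X) ^ 4 * (C (conj B) + C (conj A) * X ^ 4) with hG
  have hG0 : G = 0 := by
    apply Polynomial.eq_zero_of_infinite_isRoot
    refine ((Set.finite_singleton (1 : ℂ)).infinite_compl).mono ?_
    intro x hx
    have hx1 : (1 : ℂ) ≠ x := fun h => hx (by simp [h])
    have h1 := hz 1 x hx1
    unfold FF at h1
    show IsRoot G x
    rw [IsRoot.def, hG]
    simp only [eval_sub, eval_mul, eval_pow, eval_add, eval_C, eval_X]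
    linear_combination h1
  have e1 : α ^ 3 * β * A = conj β ^ 3 * conj α * conj B := by
    have h1 : (derivative G).eval 0 = 0 := by rw [hG0]; simp
    rw [hG] at h1
    simp [derivative_pow] at h1
    linear_combination h1 / 4
  have hα : α ≠ 0 := by
    intro h0
    apply h
    refine ⟨h0, ?_⟩
    rw [h0] at e0
    have h1 : conj β ^ 4 * conj B = 0 := by rw [← e0]; ring
    rcases mul_eq_zero.1 h1 with h2 | h2
    · have h3 := pow_eq_zero_iff (n := 4) (by norm_num) |>.1 h2
      exact (map_eq_zero _).1 h3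
    · exact absurd ((map_eq_zero _).1 h2) hB
  have hβ : β ≠ 0 := by
    intro h0
    rw [h0] at e0
    have h1 : α ^ 4 * A = 0 := by rw [e0]; simp
    rcases mul_eq_zero.1 h1 with h2 | h2
    · exact hα (pow_eq_zero_iff (n := 4) (by norm_num) |>.1 h2)
    · exact hA h2
  have hβ' : conj β ≠ 0 := (_root_.map_ne_zero _).2 hβ
  have hB' : conj B ≠ 0 := (_root_.map_ne_zero _).2 hB
  have e2 : β * conj β = α * conj α := by
    have h1 : conj β ^ 3 * conj B * (β * conj β) = conj β ^ 3 * conj B * (α * conj α) := by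
      linear_combination α * e1 - β * e0
    exact mul_left_cancel₀ (mul_ne_zero (pow_ne_zero 3 hβ') hB') h1
  have e3 : Complex.normSq β = Complex.normSq α := by
    rw [Complex.mul_conj, Complex.mul_conj] at e2
    exact_mod_cast e2
  apply hAB
  have e4 := congrArg Complex.normSq e0
  simp only [map_mul, map_pow, Complex.normSq_conj] at e4
  rw [e3] at e4
  exact mul_left_cancel₀ (pow_ne_zero 4 (by rwa [Ne, Complex.normSq_eq_zero])) e4

private noncomputable def PP (α β A B : ℂ) : ℂ[X] :=
  (C α * (X + C Complex.I) + C β * (X - C Complex.I)) ^ 4 *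
    (C A * (X + C Complex.I) ^ 4 + C B * (X - C Complex.I) ^ 4) -
  (C (conj β) * (X + C Complex.I) + C (conj α) * (X - C Complex.I)) ^ 4 *
    (C (conj B) * (X + C Complex.I) ^ 4 + C (conj A) * (X - C Complex.I) ^ 4)

private theorem pp_eval (α β A B x : ℂ) :
    (PP α β A B).eval x = FF α β A B (x + Complex.I) (x - Complex.I) := by
  unfold PP FF
  simp only [eval_sub, eval_mul, eval_pow, eval_add, eval_C, eval_X]

private theorem pp_deg (α β A B : ℂ) : (PP α β A B).natDegree ≤ 8 := by
  unfold PP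
  compute_degree

private theorem pp_ne (α β A B : ℂ) (hA : A ≠ 0) (hB : B ≠ 0) (hAB : Complex.normSq A ≠ Complex.normSq B)
    (h : ¬ (α = 0 ∧ β = 0)) : PP α β A B ≠ 0 := by
  intro h0
  apply ff_ne α β A B hA hB hAB h
  intro W V hWV
  have h1 : W - V ≠ 0 := sub_ne_zero.2 hWV
  set t : ℂ := 2 * Complex.I / (W - V) with ht
  have ht0 : t ≠ 0 := div_ne_zero (mul_ne_zero two_ne_zero Complex.I_ne_zero) h1
  have h2 : t * (W - V) = 2 * Complex.I := div_mul_cancel₀ _ h1
  have h3 := pp_eval α β A B (t * W - Complex.I)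
  rw [h0, eval_zero] at h3
  have h4 : t * W - Complex.I + Complex.I = t * W := by ring
  have h5 : t * W - Complex.I - Complex.I = t * V := by linear_combination h2
  rw [h4, h5, ff_hom] at h3
  exact (mul_eq_zero.1 h3.symm).resolve_left (pow_ne_zero 8 ht0)

/-- few primitive vectors at which a form of degree eight vanishes -/
private theorem few_dir (α β A B : ℂ) (hA : A ≠ 0) (hB : B ≠ 0) (hAB : Complex.normSq A ≠ Complex.normSq B)
    (h : ¬ (α = 0 ∧ β = 0)) : ∃ S : Finset (ℤ × ℤ), S.card ≤ 18 ∧ ∀ r s : ℤ, IsCoprime r s →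
      FF α β A B ((r : ℂ) + s * Complex.I) ((r : ℂ) - s * Complex.I) = 0 → (r, s) ∈ S := by
  classical
  set P := PP α β A B with hP
  have hP0 : P ≠ 0 := pp_ne α β A B hA hB hAB h
  have hinj : Function.Injective (fun q : ℚ => (q : ℂ)) := Rat.cast_injective
  set T : Finset ℚ := P.roots.toFinset.preimage (fun q : ℚ => (q : ℂ)) hinj.injOn with hT
  have hcard : T.card ≤ 8 := by
    have h1 : T.card ≤ P.roots.toFinset.card :=
      Finset.card_le_card_of_injOn (fun q : ℚ => (q : ℂ))
        (fun q hq => by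
          have := Finset.mem_preimage.1 (Finset.mem_coe.1 hq)
          exact this) hinj.injOn
    exact h1.trans ((Multiset.toFinset_card_le _).trans ((card_roots' P).trans (pp_deg α β A B)))
  refine ⟨{(1, 0), (-1, 0)} ∪ (T.image (fun q : ℚ => (q.num, (q.den : ℤ))) ∪
    T.image (fun q : ℚ => (-q.num, -(q.den : ℤ)))), ?_, ?_⟩
  · refine (Finset.card_union_le _ _).trans ?_
    have h1 : ({(1, 0), (-1, 0)} : Finset (ℤ × ℤ)).card ≤ 2 := Finset.card_le_two
    have h2 := Finset.card_union_le (T.image (fun q : ℚ => (q.num, (q.den : ℤ))))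
      (T.image (fun q : ℚ => (-q.num, -(q.den : ℤ))))
    have h3 := Finset.card_image_le (s := T) (f := fun q : ℚ => (q.num, (q.den : ℤ)))
    have h4 := Finset.card_image_le (s := T) (f := fun q : ℚ => (-q.num, -(q.den : ℤ)))
    omega
  · intro r s hrs hf
    rw [Finset.mem_union, Finset.mem_union]
    by_cases hs : s = 0
    · left
      subst hs
      have h1 := isCoprime_zero_right.1 hrs
      rcases Int.isUnit_iff.1 h1 with h2 | h2 <;> rw [h2] <;> simp
    · right
      have hs' : (s : ℂ) ≠ 0 := by exact_mod_cast hs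
      have hroot : ((r : ℚ) / s) ∈ T := by
        rw [hT, Finset.mem_preimage, Multiset.mem_toFinset, mem_roots hP0, IsRoot.def, hP, pp_eval]
        have e1 : ((((r : ℚ) / s : ℚ)) : ℂ) + Complex.I = (s : ℂ)⁻¹ * ((r : ℂ) + s * Complex.I) := by
          push_cast
          field_simp
        have e2 : ((((r : ℚ) / s : ℚ)) : ℂ) - Complex.I = (s : ℂ)⁻¹ * ((r : ℂ) - s * Complex.I) := by
          push_cast
          field_simp
        rw [e1, e2, ff_hom, hf, mul_zero]
      rcases lt_or_gt_of_ne hs with hneg | hpos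
      · right
        rw [Finset.mem_image]
        have e : (r : ℚ) / s = ((-r : ℤ) : ℚ) / ((-s : ℤ) : ℚ) := by
          push_cast
          rw [neg_div_neg_eq]
        have hc : Nat.Coprime (-r).natAbs (-s).natAbs := by
          rw [Int.natAbs_neg, Int.natAbs_neg]
          exact Int.isCoprime_iff_gcd_eq_one.1 hrs
        refine ⟨(r : ℚ) / s, hroot, ?_⟩
        have h1 := Rat.num_div_eq_of_coprime (a := -r) (b := -s) (by omega) hc
        have h2 := Rat.den_div_eq_of_coprime (a := -r) (b := -s) (by omega) hc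
        rw [e, h1, h2]
        simp
      · left
        rw [Finset.mem_image]
        have hc : Nat.Coprime r.natAbs s.natAbs := Int.isCoprime_iff_gcd_eq_one.1 hrs
        refine ⟨(r : ℚ) / s, hroot, ?_⟩
        have h1 := Rat.num_div_eq_of_coprime (a := r) (b := s) hpos hc
        have h2 := Rat.den_div_eq_of_coprime (a := r) (b := s) hpos hc
        rw [h1, h2]

/-- the linear form in the second variable is a multiple of the first -/
private theorem im_zero (p q r s a b : ℝ) (c : ℂ) (hpq : p ^ 2 + q ^ 2 ≠ 0) (hL : p * a + q * b = 0)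
    (hz : (((p : ℂ) + q * Complex.I) ^ 4 * c).im = 0) :
    (((b : ℂ) - a * Complex.I) ^ 4 * c).im = 0 := by
  have h1 : ((p ^ 2 + q ^ 2 : ℝ) : ℂ) * ((b : ℂ) - a * Complex.I) =
      ((b * p - a * q : ℝ) : ℂ) * ((p : ℂ) + q * Complex.I) := by
    apply Complex.ext
    · simp [pow_two]
      linear_combination q * hL
    · simp [pow_two]
      linear_combination (-p) * hL
  have h2 : (((p ^ 2 + q ^ 2) ^ 4 : ℝ) : ℂ) * (((b : ℂ) - a * Complex.I) ^ 4 * c) =
      (((b * p - a * q) ^ 4 : ℝ) : ℂ) * (((p : ℂ) + q * Complex.I) ^ 4 * c) := by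
    have h3 := congrArg (fun x : ℂ => x ^ 4 * c) h1
    simp only [mul_pow] at h3
    push_cast at h3 ⊢
    linear_combination h3
  have h4 := congrArg Complex.im h2
  rw [Complex.im_ofReal_mul, Complex.im_ofReal_mul, hz, mul_zero] at h4
  exact (mul_eq_zero.1 h4).resolve_left (pow_ne_zero 4 hpq)

theorem common_zeros (A B : GaussianInt) (hA : A ≠ 0) (hB : B ≠ 0) (hAB : A.norm ≠ B.norm)
    (l : Fin 4 → ℚ) (hl : l ≠ 0) : ∃ S : Finset (GaussianInt × GaussianInt), S.card ≤ 180 ∧
      ∀ z w : GaussianInt, IsCoprime z.re z.im → IsCoprime w.re w.im →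
        (z ^ 4 * cf A B w).im = 0 → ∑ k, l k * (tens z w k : ℚ) = 0 → (z, w) ∈ S := by
  classical
  -- the second coordinate
  set c1 : ℂ := (l 2 : ℂ) - (l 0 : ℂ) * Complex.I with hc1
  set c2 : ℂ := (l 3 : ℂ) - (l 1 : ℂ) * Complex.I with hc2
  set α : ℂ := (c1 - Complex.I * c2) / 2 with hα
  set β : ℂ := (c1 + Complex.I * c2) / 2 with hβ
  have hab : ¬ (α = 0 ∧ β = 0) := by
    rintro ⟨h1, h2⟩
    have h3 : c1 = 0 := by
      have : c1 = α + β := by rw [hα, hβ]; ring
      rw [this, h1, h2, add_zero]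
    have h4 : c2 = 0 := by
      have : c2 = Complex.I * (α - β) := by
        rw [hα, hβ]
        linear_combination c2 * Complex.I_sq
      rw [this, h1, h2, sub_zero, mul_zero]
    apply hl
    have e1 := congrArg Complex.re h3
    have e2 := congrArg Complex.im h3
    have e3 := congrArg Complex.re h4
    have e4 := congrArg Complex.im h4
    rw [hc1] at e1 e2
    rw [hc2] at e3 e4
    simp at e1 e2 e3 e4
    funext k
    fin_cases k
    · simpa using e2
    · simpa using e4
    · simpa using e1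
    · simpa using e3
  have hA' : (A : ℂ) ≠ 0 := by
    intro h
    exact hA (GaussianInt.toComplex_eq_zero.1 h)
  have hB' : (B : ℂ) ≠ 0 := by
    intro h
    exact hB (GaussianInt.toComplex_eq_zero.1 h)
  have hN : Complex.normSq (A : ℂ) ≠ Complex.normSq (B : ℂ) := by
    rw [← GaussianInt.intCast_real_norm, ← GaussianInt.intCast_real_norm]
    intro h
    exact hAB (by exact_mod_cast h)
  obtain ⟨S, hS1, hS2⟩ := few_dir α β (A : ℂ) (B : ℂ) hA' hB' hN hab
  -- the first coordinate
  have hZ : ∀ x : ℤ × ℤ, ∃ Z : Finset (ℤ × ℤ), Z.card ≤ 10 ∧ (IsCoprime x.1 x.2 → ∀ p q : ℤ, IsCoprime p q →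
      ((⟨p, q⟩ : GaussianInt) ^ 4 * cf A B ⟨x.1, x.2⟩).im = 0 → (p, q) ∈ Z) := by
    intro x
    by_cases hx : IsCoprime x.1 x.2
    · set w : GaussianInt := ⟨x.1, x.2⟩ with hw
      have hw0 : w ≠ 0 := by
        intro h
        have e1 : x.1 = 0 := congrArg Zsqrtd.re h
        have e2 : x.2 = 0 := congrArg Zsqrtd.im h
        rw [e1, e2] at hx
        exact not_isCoprime_zero_zero hx
      have hcf : cf A B w ≠ 0 := by
        intro h
        unfold cf at h
        have h1 : A * w ^ 4 = -(B * (star w) ^ 4) := by linear_combination h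
        have h2 := congrArg Zsqrtd.norm h1
        rw [Zsqrtd.norm_neg, Zsqrtd.norm_mul, Zsqrtd.norm_mul] at h2
        have h3 : ∀ u : GaussianInt, (u ^ 4).norm = u.norm ^ 4 := by
          intro u
          rw [pow_succ, pow_succ, pow_succ, pow_one, Zsqrtd.norm_mul, Zsqrtd.norm_mul, Zsqrtd.norm_mul]
          ring
        rw [h3, h3, Zsqrtd.norm_conj] at h2
        have h4 : w.norm ≠ 0 := by
          intro h5
          exact hw0 ((Zsqrtd.norm_eq_zero_iff (by norm_num) w).1 h5)
        exact hAB (mul_right_cancel₀ (pow_ne_zero 4 h4) h2)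
      obtain ⟨Z, hZ1, hZ2⟩ := Pool.H68.MS.zeros (cf A B w).im (cf A B w).re 0 (by
        rintro ⟨h1, h2, _⟩
        exact hcf (Zsqrtd.ext h2 h1))
      refine ⟨Z, hZ1, fun _ p q hpq him => hZ2 p q hpq ?_⟩
      have h1 : ((⟨p, q⟩ : GaussianInt) ^ 4 * cf A B w).im =
          (cf A B w).im * (p ^ 4 - 6 * p ^ 2 * q ^ 2 + q ^ 4) +
            (cf A B w).re * (4 * p ^ 3 * q - 4 * p * q ^ 3) := by
        generalize cf A B w = u
        obtain ⟨c, d⟩ := u
        simp [pow_succ]
        ring
      rw [h1] at him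
      linear_combination him
    · exact ⟨∅, by simp, fun h => absurd h hx⟩
  choose Z hZ1 hZ2 using hZ
  refine ⟨S.biUnion fun x => (Z x).image fun y => ((⟨y.1, y.2⟩ : GaussianInt), (⟨x.1, x.2⟩ : GaussianInt)),
    ?_, ?_⟩
  · refine (Finset.card_biUnion_le_card_mul _ _ 10 fun x _ => Finset.card_image_le.trans (hZ1 x)).trans ?_
    omega
  · rintro ⟨p, q⟩ ⟨r, s⟩ hz hw him hsum
    simp only at hz hw
    rw [Finset.mem_biUnion]
    refine ⟨(r, s), ?_, ?_⟩
    · apply hS2 r s hw
      -- the value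
      have hpq : ((p : ℝ) ^ 2 + (q : ℝ) ^ 2) ≠ 0 := by
        intro h
        have h1 : (p : ℝ) = 0 := by nlinarith [sq_nonneg (p : ℝ), sq_nonneg (q : ℝ)]
        have h2 : (q : ℝ) = 0 := by nlinarith [sq_nonneg (p : ℝ), sq_nonneg (q : ℝ)]
        have h3 : p = 0 := by exact_mod_cast h1
        have h4 : q = 0 := by exact_mod_cast h2
        rw [h3, h4] at hz
        exact not_isCoprime_zero_zero hz
      set a : ℝ := (l 0 : ℝ) * r + (l 1 : ℝ) * s with ha
      set b : ℝ := (l 2 : ℝ) * r + (l 3 : ℝ) * s with hb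
      have hL : (p : ℝ) * a + (q : ℝ) * b = 0 := by
        have h1 : ((∑ k, l k * (tens ⟨p, q⟩ ⟨r, s⟩ k : ℚ) : ℚ) : ℝ) = 0 := by rw [hsum]; simp
        rw [Fin.sum_univ_four] at h1
        simp [tens] at h1
        rw [ha, hb]
        linear_combination h1
      set w : ℂ := (r : ℂ) + s * Complex.I with hw'
      have hcw : conj w = (r : ℂ) - s * Complex.I := by
        rw [hw']
        simp [sub_eq_add_neg]
      have hcf : ((cf A B ⟨r, s⟩ : GaussianInt) : ℂ) = (A : ℂ) * w ^ 4 + (B : ℂ) * conj w ^ 4 := by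
        unfold cf
        rw [map_add, map_mul, map_mul, map_pow, map_pow, GaussianInt.toComplex_star]
        have : ((⟨r, s⟩ : GaussianInt) : ℂ) = w := by
          rw [GaussianInt.toComplex_def]
        rw [this]
      have him' : (((p : ℂ) + q * Complex.I) ^ 4 * ((A : ℂ) * w ^ 4 + (B : ℂ) * conj w ^ 4)).im = 0 := by
        rw [← hcf]
        have : ((p : ℂ) + q * Complex.I) = ((⟨p, q⟩ : GaussianInt) : ℂ) := by
          rw [GaussianInt.toComplex_def]
        rw [this, ← map_pow, ← map_mul, ← GaussianInt.intCast_im, him]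
        simp
      have h5 := im_zero (p : ℝ) (q : ℝ) r s a b _ hpq hL (by exact_mod_cast him')
      have hmu : (b : ℂ) - a * Complex.I = α * w + β * conj w := by
        rw [hcw, hw', hα, hβ, hc1, hc2, ha, hb]
        push_cast
        linear_combination (((l 3 : ℂ) - (l 1 : ℂ) * Complex.I) * s) * Complex.I_sq
      rw [← hcw, ff_conj, ← hmu]
      exact sub_eq_zero.2 (Complex.conj_eq_iff_im.2 h5).symm
    · rw [Finset.mem_image]
      exact ⟨(p, q), hZ2 (r, s) hw p q hz him, rfl⟩

end Pool.H68.MT
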