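import Pool.Agent.H68.MT.Tens
import Pool.Agent.H68.MT.Det
import Pool.Agent.H68.MT.Zero

/-!
# The points in one residue class, and all points which are good at one prime
-/

set_option autoImplicit false

namespace Pool.H68.MT

theorem exists_form (T : Set (Fin 4 → ℤ))
    (h : ∀ v : Fin 4 → (Fin 4 → ℤ), (∀ i, v i ∈ T) → Matrix.det (Matrix.of v) = 0) :
    ∃ l : Fin 4 → ℚ, l ≠ 0 ∧ ∀ v ∈ T, ∑ k, l k * (v k : ℚ) = 0 := by
  classical
  let c : (Fin 4 → ℤ) → (Fin 4 → ℚ) := fun v k => (v k : ℚ)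
  by_cases hsp : Submodule.span ℚ (c '' T) < ⊤
  · obtain ⟨f, hf0, hf⟩ := Submodule.exists_le_ker_of_lt_top _ hsp
    refine ⟨fun k => f (Pi.single k 1), ?_, ?_⟩
    · intro h0
      apply hf0
      apply LinearMap.pi_ext'
      intro k
      ext
      have := congrFun h0 k
      simpa using this
    · intro v hv
      have h1 : c v ∈ LinearMap.ker f := hf (Submodule.subset_span ⟨v, hv, rfl⟩)
      rw [LinearMap.mem_ker] at h1
      have h2 : c v = ∑ k, (v k : ℚ) • (Pi.single k (1 : ℚ) : Fin 4 → ℚ) := by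
        ext j
        simp [c, Finset.sum_apply, Pi.single_apply]
      rw [h2, map_sum] at h1
      simp only [map_smul, smul_eq_mul] at h1
      rw [← h1]
      exact Finset.sum_congr rfl fun k _ => mul_comm _ _
  · exfalso
    have htop : Submodule.span ℚ (c '' T) = ⊤ := by
      by_contra hne
      exact hsp (lt_top_iff_ne_top.2 hne)
    obtain ⟨b, hbT, hbs, hbl⟩ := exists_linearIndependent ℚ (c '' T)
    rw [htop] at hbs
    let bas : Module.Basis b ℚ (Fin 4 → ℚ) := Module.Basis.mk hbl (by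
      rw [Subtype.range_coe]
      exact hbs.ge)
    have hfin : Fintype b := FiniteDimensional.fintypeBasisIndex bas
    have hcard : Fintype.card b = 4 := by
      have h1 := Module.finrank_eq_card_basis bas
      rw [Module.finrank_fin_fun] at h1
      exact h1.symm
    let e : Fin 4 ≃ b := (Fintype.equivFinOfCardEq hcard).symm
    have hpre : ∀ i, ∃ v ∈ T, c v = (e i : Fin 4 → ℚ) := fun i => hbT (e i).2
    choose v hvT hv using hpre
    have hdet := h v hvT
    have hli : LinearIndependent ℚ (fun i => (e i : Fin 4 → ℚ)) := hbl.comp e e.injective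
    have hM : (Matrix.of v).map (Int.cast : ℤ → ℚ) = Matrix.of fun i => (e i : Fin 4 → ℚ) := by
      ext i j
      simp only [Matrix.map_apply, Matrix.of_apply]
      rw [← hv i]
    have h1 : LinearIndependent ℚ (Matrix.of fun i => (e i : Fin 4 → ℚ)).row := hli
    rw [Matrix.linearIndependent_rows_iff_isUnit, Matrix.isUnit_iff_isUnit_det, ← hM] at h1
    have h2 : ((Matrix.of v).map (Int.cast : ℤ → ℚ)).det = ((Matrix.of v).det : ℚ) :=
      (Int.cast_det (Matrix.of v)).symm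
    rw [h2, hdet] at h1
    simp at h1

theorem det_small {K K' : ℕ} (z w : Fin 4 → GaussianInt) (hz : ∀ i, (z i).norm ≤ K)
    (hw : ∀ i, (w i).norm ≤ K') :
    |Matrix.det (Matrix.of fun i : Fin 4 => tens (z i) (w i))| ≤ 24 * ((K : ℤ) * K') ^ 2 := by
  have hent : ∀ i j, |((Matrix.of fun i : Fin 4 => tens (z i) (w i)) i j : ℝ)| ≤
      Real.sqrt ((K : ℝ) * K') := by
    intro i j
    apply Real.abs_le_sqrt
    have h1 : ∀ a b c d : ℤ, a ^ 2 + b ^ 2 ≤ K → c ^ 2 + d ^ 2 ≤ K' →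
        (a * c) ^ 2 ≤ (K : ℤ) * K' := by
      intro a b c d h1 h2
      calc (a * c) ^ 2 = a ^ 2 * c ^ 2 := by ring
        _ ≤ (K : ℤ) * K' := by
          apply mul_le_mul
          · nlinarith [sq_nonneg b]
          · nlinarith [sq_nonneg d]
          · positivity
          · positivity
    have hzi := hz i
    have hwi := hw i
    rw [Zsqrtd.norm_def] at hzi hwi
    have hz2 : (z i).re ^ 2 + (z i).im ^ 2 ≤ K := by linarith [sq (z i).re, sq (z i).im]
    have hw2 : (w i).re ^ 2 + (w i).im ^ 2 ≤ K' := by linarith [sq (w i).re, sq (w i).im]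
    have hz3 : (z i).im ^ 2 + (z i).re ^ 2 ≤ K := by linarith
    have hw3 : (w i).im ^ 2 + (w i).re ^ 2 ≤ K' := by linarith
    have h2 : (tens (z i) (w i) j) ^ 2 ≤ (K : ℤ) * K' := by
      fin_cases j
      · exact h1 _ _ _ _ hz2 hw2
      · exact h1 _ _ _ _ hz2 hw3
      · exact h1 _ _ _ _ hz3 hw2
      · exact h1 _ _ _ _ hz3 hw3
    exact_mod_cast h2
  have h1 := Matrix.det_le (abv := (AbsoluteValue.abs : AbsoluteValue ℝ ℝ))
    (A := (Matrix.of fun i : Fin 4 => tens (z i) (w i)).map (Int.cast : ℤ → ℝ))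
    (x := Real.sqrt ((K : ℝ) * K')) (fun i j => hent i j)
  have h2 : ((Matrix.of fun i : Fin 4 => tens (z i) (w i)).map (Int.cast : ℤ → ℝ)).det =
      ((Matrix.of fun i : Fin 4 => tens (z i) (w i)).det : ℝ) := (Int.cast_det _).symm
  rw [h2] at h1
  have h3 : Real.sqrt ((K : ℝ) * K') ^ 4 = ((K : ℝ) * K') ^ 2 := by
    have : Real.sqrt ((K : ℝ) * K') ^ 4 = (Real.sqrt ((K : ℝ) * K') ^ 2) ^ 2 := by ring
    rw [this, Real.sq_sqrt (by positivity)]
  have h4 : ((|Matrix.det (Matrix.of fun i : Fin 4 => tens (z i) (w i))| : ℤ) : ℝ) ≤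
      ((24 * ((K : ℤ) * K') ^ 2 : ℤ) : ℝ) := by
    push_cast
    rw [Fintype.card_fin, h3] at h1
    simp only [AbsoluteValue.abs_apply] at h1
    have h5 : (Nat.factorial 4 : ℕ) = 24 := rfl
    rw [h5] at h1
    rw [nsmul_eq_mul] at h1
    exact_mod_cast h1
  exact_mod_cast h4

/-- the residue class of a direction -/
noncomputable def cls (p : ℕ) [Fact p.Prime] (x : GaussianInt) : Option (ZMod p) := by
  classical
  exact if ((x.im : ℤ) : ZMod p) = 0 then none else some (((x.re : ℤ) : ZMod p) / ((x.im : ℤ) : ZMod p))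

theorem norm_mod {p : ℕ} [Fact p.Prime] {x : GaussianInt} (h : ¬ (p : ℤ) ∣ x.norm) :
    ((x.re : ZMod p)) ≠ 0 ∨ ((x.im : ZMod p)) ≠ 0 := by
  by_contra hcon
  push Not at hcon
  obtain ⟨h1, h2⟩ := hcon
  rw [ZMod.intCast_zmod_eq_zero_iff_dvd] at h1 h2
  apply h
  rw [Zsqrtd.norm_def]
  exact dvd_sub (h1.mul_right _) ((h2.mul_left _))

/-- two directions in one class are proportional modulo `p` -/
theorem cls_prop {p : ℕ} [Fact p.Prime] {x y : GaussianInt} (hx : ¬ (p : ℤ) ∣ x.norm)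
    (hy : ¬ (p : ℤ) ∣ y.norm) (h : cls p x = cls p y) : ∃ t : ZMod p, t ≠ 0 ∧
      (x.re : ZMod p) = t * (y.re : ZMod p) ∧ (x.im : ZMod p) = t * (y.im : ZMod p) := by
  classical
  unfold cls at h
  by_cases h1 : (x.im : ZMod p) = 0
  · by_cases h2 : (y.im : ZMod p) = 0
    · have hx' : (x.re : ZMod p) ≠ 0 := (norm_mod hx).resolve_right (fun h => h h1)
      have hy' : (y.re : ZMod p) ≠ 0 := (norm_mod hy).resolve_right (fun h => h h2)
      refine ⟨(x.re : ZMod p) / (y.re : ZMod p), div_ne_zero hx' hy', ?_, ?_⟩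
      · field_simp
      · rw [h1, h2, mul_zero]
    · rw [if_pos h1, if_neg h2] at h
      exact absurd h (by simp)
  · by_cases h2 : (y.im : ZMod p) = 0
    · rw [if_neg h1, if_pos h2] at h
      exact absurd h (by simp)
    · rw [if_neg h1, if_neg h2] at h
      have h3 := Option.some.inj h
      refine ⟨(x.im : ZMod p) / (y.im : ZMod p), div_ne_zero h1 h2, ?_, ?_⟩
      · rw [div_eq_div_iff h1 h2] at h3
        field_simp
        linear_combination h3
      · field_simp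

theorem cls_dvd {p : ℕ} [Fact p.Prime] {x y : GaussianInt} (hx : ¬ (p : ℤ) ∣ x.norm)
    (hy : ¬ (p : ℤ) ∣ y.norm) (h : cls p x = cls p y) : (p : ℤ) ∣ (x * star y).im := by
  obtain ⟨t, _, h1, h2⟩ := cls_prop hx hy h
  rw [← ZMod.intCast_zmod_eq_zero_iff_dvd]
  have h3 : (x * star y).im = x.im * y.re - x.re * y.im := by
    simp
    ring
  rw [h3]
  push_cast
  rw [h1, h2]
  ring

theorem rel_mod (A B z w : GaussianInt) : (z ^ 4 * cf A B w).im =
    (cf A B w).im * (z.re ^ 4 - 6 * z.re ^ 2 * z.im ^ 2 + z.im ^ 4) +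
      (cf A B w).re * (4 * z.re ^ 3 * z.im - 4 * z.re * z.im ^ 3) := by
  generalize cf A B w = c
  obtain ⟨r, s⟩ := z
  obtain ⟨a, b⟩ := c
  simp [pow_succ]
  ring

theorem cf_mod {p : ℕ} (A B w w0 : GaussianInt) (t : ZMod p)
    (h1 : (w.re : ZMod p) = t * (w0.re : ZMod p)) (h2 : (w.im : ZMod p) = t * (w0.im : ZMod p)) :
    (((cf A B w).re : ℤ) : ZMod p) = t ^ 4 * (((cf A B w0).re : ℤ) : ZMod p) ∧
    (((cf A B w).im : ℤ) : ZMod p) = t ^ 4 * (((cf A B w0).im : ℤ) : ZMod p) := by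
  obtain ⟨a, b⟩ := A
  obtain ⟨c, d⟩ := B
  obtain ⟨r, s⟩ := w
  obtain ⟨r0, s0⟩ := w0
  simp only at h1 h2
  constructor
  · simp [cf, pow_succ]
    rw [h1, h2]
    ring
  · simp [cf, pow_succ]
    rw [h1, h2]
    ring

end Pool.H68.MT
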