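import Pool.Agent.H68.MT.Lin

/-!
# The points which are good at one prime
-/

set_option autoImplicit false

namespace Pool.H68.MT

open Polynomial

/-- a point of the relation which is good at `p` -/
def Good (A B : GaussianInt) (K K' p : ℕ) (z w : GaussianInt) : Prop :=
  IsCoprime z.re z.im ∧ IsCoprime w.re w.im ∧ z.norm ≤ K ∧ w.norm ≤ K' ∧
    (z ^ 4 * cf A B w).im = 0 ∧ ¬ (p : ℤ) ∣ z.norm ∧ ¬ (p : ℤ) ∣ w.norm ∧
    ¬ (p : ℤ) ∣ (cf A B w).norm

theorem coef' {R : Type} [CommRing R] (a b c d e : R) :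
    (C a * X ^ 4 + C b * X ^ 3 + C c * X ^ 2 + C d * X + C e : R[X]).coeff 4 = a ∧
    (C a * X ^ 4 + C b * X ^ 3 + C c * X ^ 2 + C d * X + C e : R[X]).coeff 3 = b := by
  refine ⟨?_, ?_⟩ <;> simp

theorem class_z (A B : GaussianInt) {p : ℕ} [Fact p.Prime] (h2 : p ≠ 2) (K K' : ℕ)
    (ω : Option (ZMod p)) : ∃ R : Finset (Option (ZMod p)), R.card ≤ 5 ∧
      ∀ z w, Good A B K K' p z w → cls p w = ω → cls p z ∈ R := by
  classical
  have hpp : p.Prime := Fact.out
  by_cases hex : ∃ z w, Good A B K K' p z w ∧ cls p w = ω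
  · obtain ⟨z0, w0, h0, hω0⟩ := hex
    obtain ⟨-, -, -, -, -, -, hw0, hc0⟩ := h0
    obtain ⟨α, hα⟩ : ∃ α : ZMod p, α = (((cf A B w0).im : ℤ) : ZMod p) := ⟨_, rfl⟩
    obtain ⟨β, hβ⟩ : ∃ β : ZMod p, β = (((cf A B w0).re : ℤ) : ZMod p) := ⟨_, rfl⟩
    have hαβ : ¬ (α = 0 ∧ β = 0) := by
      rintro ⟨h1, h3⟩
      rcases norm_mod hc0 with h | h
      · exact h (hβ ▸ h3)
      · exact h (hα ▸ h1)
    have h4 : (4 : ZMod p) ≠ 0 := by
      intro h
      have h5 : ((4 : ℕ) : ZMod p) = 0 := by exact_mod_cast h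
      rw [ZMod.natCast_eq_zero_iff] at h5
      have h6 : p ∣ 2 ^ 2 := h5
      exact h2 ((Nat.prime_dvd_prime_iff_eq hpp Nat.prime_two).1 (hpp.dvd_of_dvd_pow h6))
    obtain ⟨P, hP⟩ : ∃ P : (ZMod p)[X], P = C α * X ^ 4 + C (4 * β) * X ^ 3 + C (-6 * α) * X ^ 2 +
      C (-4 * β) * X + C α := ⟨_, rfl⟩
    have hc4 : P.coeff 4 = α := by rw [hP]; exact (coef' α (4 * β) (-6 * α) (-4 * β) α).1
    have hc3 : P.coeff 3 = 4 * β := by rw [hP]; exact (coef' α (4 * β) (-6 * α) (-4 * β) α).2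
    have hP0 : P ≠ 0 := by
      intro h
      rw [h, coeff_zero] at hc4 hc3
      apply hαβ
      refine ⟨hc4.symm, ?_⟩
      rcases mul_eq_zero.1 hc3.symm with h5 | h5
      · exact absurd h5 h4
      · exact h5
    have hdeg : P.natDegree ≤ 4 := by
      rw [hP]
      compute_degree
    have hcard : P.roots.toFinset.card ≤ 4 :=
      (Multiset.toFinset_card_le _).trans ((card_roots' P).trans hdeg)
    refine ⟨insert none (P.roots.toFinset.image some), ?_, ?_⟩
    · refine (Finset.card_insert_le _ _).trans ?_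
      have := Finset.card_image_le (s := P.roots.toFinset) (f := (some : ZMod p → Option (ZMod p)))
      omega
    · intro z w hg hω
      obtain ⟨-, -, -, -, hrel, hz, hw, hc⟩ := hg
      obtain ⟨t, ht, e1, e2⟩ := cls_prop hw hw0 (hω.trans hω0.symm)
      obtain ⟨e3, e4⟩ := cf_mod A B w w0 t e1 e2
      rw [Finset.mem_insert]
      unfold cls
      by_cases him : ((z.im : ℤ) : ZMod p) = 0
      · left
        rw [if_pos him]
      · right
        rw [if_neg him, Finset.mem_image]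
        refine ⟨_, ?_, rfl⟩
        rw [Multiset.mem_toFinset, mem_roots hP0, IsRoot.def, hP]
        simp only [eval_add, eval_mul, eval_C, eval_pow, eval_X]
        have h5 : (((z ^ 4 * cf A B w).im : ℤ) : ZMod p) = 0 := by rw [hrel]; simp
        rw [rel_mod] at h5
        push_cast at h5
        rw [e3, e4, ← hα, ← hβ] at h5
        have h6 : t ^ 4 * (α * ((z.re : ZMod p) ^ 4 - 6 * (z.re : ZMod p) ^ 2 * (z.im : ZMod p) ^ 2 +
            (z.im : ZMod p) ^ 4) + β * (4 * (z.re : ZMod p) ^ 3 * (z.im : ZMod p) -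
            4 * (z.re : ZMod p) * (z.im : ZMod p) ^ 3)) = 0 := by
          linear_combination h5
        have h7 := (mul_eq_zero.1 h6).resolve_left (pow_ne_zero 4 ht)
        field_simp
        linear_combination h7
  · refine ⟨∅, by simp, fun z w hg hω => absurd ⟨z, w, hg, hω⟩ hex⟩

theorem class_zw (A B : GaussianInt) (hA : A ≠ 0) (hB : B ≠ 0) (hAB : A.norm ≠ B.norm)
    {p : ℕ} [Fact p.Prime] (h2 : p ≠ 2) (K K' : ℕ) (hsize : 24 * (K * K') ^ 2 < p ^ 6)
    (ω κ : Option (ZMod p)) : ∃ S : Finset (GaussianInt × GaussianInt), S.card ≤ 180 ∧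
      ∀ z w, Good A B K K' p z w → cls p w = ω → cls p z = κ → (z, w) ∈ S := by
  have hpp : p.Prime := Fact.out
  obtain ⟨l, hl0, hl⟩ := exists_form
    {v | ∃ z w, Good A B K K' p z w ∧ cls p w = ω ∧ cls p z = κ ∧ v = tens z w} (by
      intro v hv
      choose z w hg hω hκ hv' using hv
      have e : Matrix.of v = Matrix.of fun i : Fin 4 => tens (z i) (w i) := by
        ext i j
        rw [Matrix.of_apply, Matrix.of_apply, hv' i]
      rw [e]
      have h1 := det_dvd hpp h2 A B z w (fun i => (hg i).2.2.2.2.2.1)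
        (fun i => (hg i).2.2.2.2.2.2.1) (fun i => (hg i).2.2.2.2.2.2.2)
        (fun i => (hg i).2.2.2.2.1)
        (fun i j => cls_dvd (hg i).2.2.2.2.2.1 (hg j).2.2.2.2.2.1 ((hκ i).trans (hκ j).symm))
        (fun i j => cls_dvd (hg i).2.2.2.2.2.2.1 (hg j).2.2.2.2.2.2.1
          ((hω i).trans (hω j).symm))
      have h3 := det_small z w (fun i => (hg i).2.2.1) (fun i => (hg i).2.2.2.1)
      refine Int.eq_zero_of_abs_lt_dvd h1 (lt_of_le_of_lt h3 ?_)
      exact_mod_cast hsize)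
  obtain ⟨S, hS1, hS2⟩ := common_zeros A B hA hB hAB l hl0
  refine ⟨S, hS1, fun z w hg hω hκ => hS2 z w hg.1 hg.2.1 hg.2.2.2.2.1 ?_⟩
  exact hl _ ⟨z, w, hg, hω, hκ, rfl⟩

theorem one_prime (A B : GaussianInt) (hA : A ≠ 0) (hB : B ≠ 0) (hAB : A.norm ≠ B.norm)
    {p : ℕ} (hp : p.Prime) (h2 : p ≠ 2) (K K' : ℕ) (hsize : 24 * (K * K') ^ 2 < p ^ 6) :
    ∃ S : Finset (GaussianInt × GaussianInt), S.card ≤ 900 * (p + 1) ∧
      ∀ z w, Good A B K K' p z w → (z, w) ∈ S := by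
  classical
  have hfact : Fact p.Prime := ⟨hp⟩
  choose R hR1 hR2 using class_z A B h2 K K'
  choose S hS1 hS2 using class_zw A B hA hB hAB h2 K K' hsize
  refine ⟨Finset.univ.biUnion fun ω => (R ω).biUnion fun κ => S ω κ, ?_, ?_⟩
  · refine (Finset.card_biUnion_le_card_mul _ _ (5 * 180) fun ω _ => ?_).trans ?_
    · exact (Finset.card_biUnion_le_card_mul _ _ 180 fun κ _ => hS1 ω κ).trans
        (Nat.mul_le_mul_right _ (hR1 ω))
    · rw [Finset.card_univ, Fintype.card_option, ZMod.card]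
      apply le_of_eq
      ring
  · intro z w hg
    rw [Finset.mem_biUnion]
    refine ⟨cls p w, Finset.mem_univ _, ?_⟩
    rw [Finset.mem_biUnion]
    exact ⟨cls p z, hR2 _ z w hg rfl, hS2 _ _ z w hg rfl rfl⟩

end Pool.H68.MT
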