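import Mathlib

/-!
# A bounded set of primes of size about `P`, one of which does not divide a given number

Proof. `L = 13 + ⌈20 / ε⌉₊`, `P' = max (max P 3) ⌈M ^ ε⌉₊`, by Bertrand (`Nat.exists_prime_lt_and_le_two_mul`)
one prime in each `(2 ^ i * P', 2 ^ (i + 1) * P']`, `i < L`: they are distinct, `> P`, `> 2` and at most
`2 ^ L * P' ≤ C * P * M ^ ε`. If all of them divide `E`, their product does, so
`E ≥ P' ^ L ≥ 3 ^ 13 * M ^ 20 > 32 * M ^ 10`.
-/

set_option autoImplicit false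

namespace Pool.H68.MT

theorem primes_sel (ε : ℝ) (hε : 0 < ε) : ∃ (L : ℕ) (C : ℝ), 0 < C ∧ ∀ M : ℕ, 1 ≤ M →
    ∀ P : ℕ, 1 ≤ P → ∃ T : Finset ℕ, T.card ≤ L ∧
      (∀ p ∈ T, p.Prime ∧ p ≠ 2 ∧ P < p ∧ (p : ℝ) ≤ C * P * (M : ℝ) ^ ε) ∧
      ∀ E : ℕ, 0 < E → E ≤ 32 * M ^ 10 → ∃ p ∈ T, ¬ p ∣ E := by
  classical
  set N := ⌈20 / ε⌉₊ with hN
  refine ⟨13 + N, 2 ^ (13 + N) * 3, by positivity, fun M hM P hP => ?_⟩
  have hM1 : (1 : ℝ) ≤ M := by exact_mod_cast hM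
  have hP1 : (1 : ℝ) ≤ P := by exact_mod_cast hP
  have hMe : 1 ≤ (M : ℝ) ^ ε := Real.one_le_rpow hM1 hε.le
  set P' := max (max P 3) ⌈(M : ℝ) ^ ε⌉₊ with hP'
  have h3 : 3 ≤ P' := (le_max_right _ _).trans (le_max_left _ _)
  have hPP : P ≤ P' := (le_max_left _ _).trans (le_max_left _ _)
  have hMP : (M : ℝ) ^ ε ≤ P' := (Nat.le_ceil _).trans (by exact_mod_cast le_max_right _ _)
  have hP'le : (P' : ℝ) ≤ 3 * P * (M : ℝ) ^ ε := by
    have a1 : (P : ℝ) ≤ 3 * P * (M : ℝ) ^ ε := by nlinarith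
    have a2 : ((3 : ℕ) : ℝ) ≤ 3 * P * (M : ℝ) ^ ε := by push_cast; nlinarith
    have a3 : ((⌈(M : ℝ) ^ ε⌉₊ : ℕ) : ℝ) ≤ 3 * P * (M : ℝ) ^ ε := by
      have := Nat.ceil_lt_add_one (show 0 ≤ (M : ℝ) ^ ε by linarith)
      nlinarith
    rw [hP', Nat.cast_max, Nat.cast_max]
    exact max_le (max_le a1 a2) a3
  have hex : ∀ i : ℕ, ∃ p : ℕ, p.Prime ∧ 2 ^ i * P' < p ∧ p ≤ 2 * (2 ^ i * P') := by
    intro i
    exact Nat.exists_prime_lt_and_le_two_mul _ (by positivity)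
  choose p hp1 hp2 hp3 using hex
  have hmono : StrictMono p := by
    apply strictMono_nat_of_lt_succ
    intro i
    have h4 := hp3 i
    have h5 := hp2 (i + 1)
    rw [pow_succ] at h5
    calc p i ≤ 2 * (2 ^ i * P') := h4
      _ = 2 ^ i * 2 * P' := by ring
      _ < p (i + 1) := h5
  have hlow : ∀ i, P' < p i := by
    intro i
    refine lt_of_le_of_lt ?_ (hp2 i)
    exact Nat.le_mul_of_pos_left _ (by positivity)
  refine ⟨(Finset.range (13 + N)).image p, ?_, ?_, ?_⟩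
  · exact Finset.card_image_le.trans (by rw [Finset.card_range])
  · intro q hq
    obtain ⟨i, hi, rfl⟩ := Finset.mem_image.1 hq
    rw [Finset.mem_range] at hi
    have h6 := hlow i
    refine ⟨hp1 i, by omega, by omega, ?_⟩
    have h7 : p i ≤ 2 ^ (13 + N) * P' := by
      refine (hp3 i).trans ?_
      rw [← mul_assoc, ← pow_succ']
      exact Nat.mul_le_mul_right _ (Nat.pow_le_pow_right (by norm_num) hi)
    have h8 : (p i : ℝ) ≤ 2 ^ (13 + N) * P' := by exact_mod_cast h7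
    refine h8.trans ?_
    calc (2 : ℝ) ^ (13 + N) * P' ≤ 2 ^ (13 + N) * (3 * P * (M : ℝ) ^ ε) :=
          mul_le_mul_of_nonneg_left hP'le (by positivity)
      _ = _ := by ring
  · intro E hE hEM
    by_contra hcon
    push Not at hcon
    have hdvd : ∏ q ∈ (Finset.range (13 + N)).image p, q ∣ E := by
      apply Finset.prod_primes_dvd
      · intro q hq
        obtain ⟨i, -, rfl⟩ := Finset.mem_image.1 hq
        exact (hp1 i).prime
      · exact hcon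
    rw [Finset.prod_image (fun _ _ _ _ h => hmono.injective h)] at hdvd
    have h9 : P' ^ (13 + N) ≤ ∏ i ∈ Finset.range (13 + N), p i := by
      calc P' ^ (13 + N) = ∏ i ∈ Finset.range (13 + N), P' := by
            rw [Finset.prod_const, Finset.card_range]
        _ ≤ _ := Finset.prod_le_prod' (fun i _ => (hlow i).le)
    have h10 : P' ^ (13 + N) ≤ 32 * M ^ 10 := h9.trans ((Nat.le_of_dvd hE hdvd).trans hEM)
    have h11 : (P' : ℝ) ^ (13 + N) ≤ 32 * (M : ℝ) ^ 10 := by exact_mod_cast h10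
    have h12 : (3 : ℝ) ^ 13 ≤ (P' : ℝ) ^ 13 :=
      pow_le_pow_left₀ (by norm_num) (by exact_mod_cast h3) 13
    have h13 : (M : ℝ) ^ 10 ≤ (P' : ℝ) ^ N := by
      have b1 : ((M : ℝ) ^ ε) ^ N ≤ (P' : ℝ) ^ N := pow_le_pow_left₀ (by linarith) hMP N
      refine le_trans ?_ b1
      rw [← Real.rpow_natCast ((M : ℝ) ^ ε) N, ← Real.rpow_mul (by linarith), ← Real.rpow_natCast (M : ℝ) 10]
      apply Real.rpow_le_rpow_of_exponent_le hM1
      have b2 : 20 / ε ≤ N := Nat.le_ceil _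
      rw [div_le_iff₀ hε] at b2
      push_cast
      nlinarith
    rw [pow_add] at h11
    have hM10 : 0 < (M : ℝ) ^ 10 := by positivity
    have h14 : (3 : ℝ) ^ 13 * (M : ℝ) ^ 10 ≤ (P' : ℝ) ^ 13 * (P' : ℝ) ^ N :=
      mul_le_mul h12 h13 hM10.le (by positivity)
    have h15 : (3 : ℝ) ^ 13 * (M : ℝ) ^ 10 ≤ 32 * (M : ℝ) ^ 10 := h14.trans h11
    have h16 : (32 : ℝ) < 3 ^ 13 := by norm_num
    nlinarith

end Pool.H68.MT
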