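import Pool.Agent.H68.MT.One
import Pool.Agent.H68.MT.Primes

/-!
# The number of the pairs of cells
-/

set_option autoImplicit false

namespace Pool.H68.MT

theorem norm_add_le' (x y : GaussianInt) : (x + y).norm ≤ 2 * x.norm + 2 * y.norm := by
  rw [Zsqrtd.norm_def, Zsqrtd.norm_def, Zsqrtd.norm_def]
  simp
  nlinarith [sq_nonneg (x.re - y.re), sq_nonneg (x.im - y.im)]

theorem norm_pow' (x : GaussianInt) (k : ℕ) : (x ^ k).norm = x.norm ^ k := by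
  induction k with
  | zero => simp
  | succ k ih => rw [pow_succ, Zsqrtd.norm_mul, ih, pow_succ]

theorem cf_ne {A B w : GaussianInt} (hAB : A.norm ≠ B.norm) (hw : w.norm ≠ 0) :
    cf A B w ≠ 0 := by
  intro h
  unfold cf at h
  have h1 : A * w ^ 4 = -(B * (star w) ^ 4) := eq_neg_of_add_eq_zero_left h
  have h2 := congrArg Zsqrtd.norm h1
  rw [Zsqrtd.norm_neg, Zsqrtd.norm_mul, Zsqrtd.norm_mul, norm_pow', norm_pow',
    Zsqrtd.norm_conj] at h2
  exact hAB (mul_right_cancel₀ (pow_ne_zero 4 hw) h2)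

theorem cf_norm_le {A B w : GaussianInt} {M : ℕ} (hA : A.norm ≤ 4 * (M : ℤ) ^ 4)
    (hB : B.norm ≤ 4 * (M : ℤ) ^ 4) (hw : w.norm ≤ M) :
    (cf A B w).norm ≤ 16 * (M : ℤ) ^ 8 := by
  have hw0 : 0 ≤ w.norm := Zsqrtd.norm_nonneg (by norm_num) _
  have hA0 : 0 ≤ A.norm := Zsqrtd.norm_nonneg (by norm_num) _
  have hB0 : 0 ≤ B.norm := Zsqrtd.norm_nonneg (by norm_num) _
  have h4 : w.norm ^ 4 ≤ (M : ℤ) ^ 4 := pow_le_pow_left₀ hw0 hw 4
  have h40 : 0 ≤ w.norm ^ 4 := pow_nonneg hw0 4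
  unfold cf
  refine (norm_add_le' _ _).trans ?_
  rw [Zsqrtd.norm_mul, Zsqrtd.norm_mul, norm_pow', norm_pow', Zsqrtd.norm_conj]
  have h1 : A.norm * w.norm ^ 4 ≤ 4 * (M : ℤ) ^ 4 * (M : ℤ) ^ 4 :=
    mul_le_mul hA h4 h40 (by positivity)
  have h2 : B.norm * w.norm ^ 4 ≤ 4 * (M : ℤ) ^ 4 * (M : ℤ) ^ 4 :=
    mul_le_mul hB h4 h40 (by positivity)
  have h3 : (M : ℤ) ^ 4 * (M : ℤ) ^ 4 = (M : ℤ) ^ 8 := by ring
  linarith

theorem norm_pos_of {x : GaussianInt} (h : IsCoprime x.re x.im) : 0 < x.norm := by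
  refine lt_of_le_of_ne (Zsqrtd.norm_nonneg (by norm_num) _) fun h0 => ?_
  have h1 : x = 0 := (Zsqrtd.norm_eq_zero_iff (by norm_num) x).1 h0.symm
  rw [h1] at h
  exact not_isCoprime_zero_zero h

theorem pair_count (ε : ℝ) (hε : 0 < ε) : ∃ C : ℝ, 0 < C ∧ ∀ M : ℕ, 1 ≤ M → ∀ K K' : ℕ, 1 ≤ K →
    1 ≤ K' → K ≤ M → K' ≤ M → ∀ A B : GaussianInt, A ≠ 0 → B ≠ 0 → A.norm ≠ B.norm →
    A.norm ≤ 4 * (M : ℤ) ^ 4 → B.norm ≤ 4 * (M : ℤ) ^ 4 →
    ∃ S : Finset (GaussianInt × GaussianInt),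
      (S.card : ℝ) ≤ C * ((K : ℝ) * K') ^ (1 / 3 : ℝ) * (M : ℝ) ^ ε ∧
      ∀ z w : GaussianInt, IsCoprime z.re z.im → IsCoprime w.re w.im → z.norm ≤ K →
        w.norm ≤ K' → (z ^ 4 * cf A B w).im = 0 → (z, w) ∈ S := by
  classical
  obtain ⟨L, C, hC, hsel⟩ := primes_sel ε hε
  refine ⟨5400 * C * (L + 1), by positivity, fun M hM K K' hK hK' hKM hKM' A B hA hB hAB hAM hBM => ?_⟩
  have hM0 : (1 : ℝ) ≤ M := by exact_mod_cast hM
  have hKK : (1 : ℝ) ≤ (K : ℝ) * K' := by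
    have h1 : (1 : ℝ) ≤ K := by exact_mod_cast hK
    have h2 : (1 : ℝ) ≤ K' := by exact_mod_cast hK'
    nlinarith
  obtain ⟨r, hr⟩ : ∃ r : ℝ, r = ((K : ℝ) * K') ^ (1 / 3 : ℝ) := ⟨_, rfl⟩
  have hr1 : 1 ≤ r := by
    rw [hr]
    exact Real.one_le_rpow hKK (by norm_num)
  have hr3 : r ^ 3 = (K : ℝ) * K' := by
    rw [hr, ← Real.rpow_natCast, ← Real.rpow_mul (by positivity)]
    norm_num
  obtain ⟨P, hP⟩ : ∃ P : ℕ, P = ⌈2 * r⌉₊ := ⟨_, rfl⟩
  have hP1 : 2 * r ≤ P := by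
    rw [hP]
    exact Nat.le_ceil _
  have hP2 : (P : ℝ) ≤ 3 * r := by
    have := Nat.ceil_lt_add_one (a := 2 * r) (by positivity)
    rw [← hP] at this
    linarith
  have hP0 : 1 ≤ P := by
    have : (1 : ℝ) ≤ P := by linarith
    exact_mod_cast this
  have hP6 : 24 * (K * K') ^ 2 ≤ P ^ 6 := by
    have h1 : (2 * r) ^ 6 ≤ (P : ℝ) ^ 6 := pow_le_pow_left₀ (by positivity) hP1 6
    have h2 : (2 * r) ^ 6 = 64 * ((K : ℝ) * K') ^ 2 := by
      rw [← hr3]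
      ring
    have h3 : (24 * ((K : ℝ) * K') ^ 2) ≤ (P : ℝ) ^ 6 := by
      rw [h2] at h1
      nlinarith [sq_nonneg ((K : ℝ) * K')]
    exact_mod_cast h3
  obtain ⟨T, hT1, hT2, hT3⟩ := hsel M hM P hP0
  have hS : ∀ p : ℕ, ∃ S : Finset (GaussianInt × GaussianInt), (p ∈ T → S.card ≤ 900 * (p + 1)) ∧
      (p ∈ T → ∀ z w, Good A B K K' p z w → (z, w) ∈ S) := by
    intro p
    by_cases hp : p ∈ T
    · have hsize : 24 * (K * K') ^ 2 < p ^ 6 :=
        lt_of_le_of_lt hP6 (Nat.pow_lt_pow_left (hT2 p hp).2.2.1 (by norm_num))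
      obtain ⟨S, h1, h2⟩ := one_prime A B hA hB hAB (hT2 p hp).1 (hT2 p hp).2.1 K K' hsize
      exact ⟨S, fun _ => h1, fun _ => h2⟩
    · exact ⟨∅, fun h => absurd h hp, fun h => absurd h hp⟩
  choose S hS1 hS2 using hS
  refine ⟨T.biUnion S, ?_, ?_⟩
  · obtain ⟨D, hD⟩ : ∃ D : ℝ, D = C * P * (M : ℝ) ^ ε := ⟨_, rfl⟩
    have h1 : ((T.biUnion S).card : ℝ) ≤ ∑ p ∈ T, ((S p).card : ℝ) := by
      exact_mod_cast Finset.card_biUnion_le
    have h2 : ∀ p ∈ T, ((S p).card : ℝ) ≤ 1800 * D := by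
      intro p hp
      have h3 : ((S p).card : ℝ) ≤ 900 * (p + 1) := by exact_mod_cast hS1 p hp
      have h4 : (1 : ℝ) ≤ p := by exact_mod_cast (hT2 p hp).1.one_lt.le
      have h5 : (p : ℝ) ≤ D := by rw [hD]; exact (hT2 p hp).2.2.2
      linarith
    have hD0 : 0 ≤ D := by rw [hD]; positivity
    have h3 : ∑ p ∈ T, ((S p).card : ℝ) ≤ (L : ℝ) * (1800 * D) := by
      refine (Finset.sum_le_card_nsmul T _ _ h2).trans ?_
      rw [nsmul_eq_mul]
      apply mul_le_mul_of_nonneg_right _ (by positivity)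
      exact_mod_cast hT1
    refine (h1.trans h3).trans ?_
    have h4 : D ≤ C * (3 * r) * (M : ℝ) ^ ε := by
      rw [hD]
      gcongr
    rw [← hr]
    calc (L : ℝ) * (1800 * D) ≤ (L + 1) * (1800 * (C * (3 * r) * (M : ℝ) ^ ε)) := by
          gcongr
          linarith
      _ = 5400 * C * (L + 1) * r * (M : ℝ) ^ ε := by ring
  · intro z w hz hw hzK hwK hrel
    have hzp := norm_pos_of hz
    have hwp := norm_pos_of hw
    have hc0 := cf_ne (w := w) hAB hwp.ne'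
    have hcp : 0 < (cf A B w).norm := by
      refine lt_of_le_of_ne (Zsqrtd.norm_nonneg (by norm_num) _) fun h0 => hc0 ?_
      exact (Zsqrtd.norm_eq_zero_iff (by norm_num) _).1 h0.symm
    have hzM : z.norm ≤ M := hzK.trans (by exact_mod_cast hKM)
    have hwM : w.norm ≤ M := hwK.trans (by exact_mod_cast hKM')
    have hcM := cf_norm_le (w := w) hAM hBM hwM
    obtain ⟨E, hE⟩ : ∃ E : ℕ, E = (z.norm * w.norm * (cf A B w).norm).toNat := ⟨_, rfl⟩
    have hEz : (E : ℤ) = z.norm * w.norm * (cf A B w).norm := by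
      rw [hE]
      exact Int.toNat_of_nonneg (by positivity)
    have hE0 : 0 < E := by
      have : (0 : ℤ) < E := by rw [hEz]; positivity
      exact_mod_cast this
    have hE1 : E ≤ 32 * M ^ 10 := by
      have h1 : z.norm * w.norm ≤ (M : ℤ) * M := mul_le_mul hzM hwM hwp.le (by positivity)
      have h2 : z.norm * w.norm * (cf A B w).norm ≤ (M : ℤ) * M * (16 * (M : ℤ) ^ 8) :=
        mul_le_mul h1 hcM hcp.le (by positivity)
      have h3 : (E : ℤ) ≤ ((32 * M ^ 10 : ℕ) : ℤ) := by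
        rw [hEz]
        refine h2.trans ?_
        push_cast
        have : (0 : ℤ) ≤ (M : ℤ) ^ 10 := by positivity
        nlinarith
      exact_mod_cast h3
    obtain ⟨p, hpT, hpE⟩ := hT3 E hE0 hE1
    rw [Finset.mem_biUnion]
    refine ⟨p, hpT, hS2 p hpT z w ⟨hz, hw, hzK, hwK, hrel, ?_, ?_, ?_⟩⟩
    · intro hd
      apply hpE
      have : (p : ℤ) ∣ (E : ℤ) := by
        rw [hEz]
        exact (hd.mul_right _).mul_right _
      exact_mod_cast this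
    · intro hd
      apply hpE
      have : (p : ℤ) ∣ (E : ℤ) := by
        rw [hEz]
        exact (hd.mul_left _).mul_right _
      exact_mod_cast this
    · intro hd
      apply hpE
      have : (p : ℤ) ∣ (E : ℤ) := by
        rw [hEz]
        exact hd.mul_left _
      exact_mod_cast this

end Pool.H68.MT
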