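import Pool.Agent.H68.MT.Form2
import Pool.Agent.H68.MS.Best

/-!
# The choice of the cells for the exponent two thirds
-/

set_option autoImplicit false

namespace Pool.H68.MT

open Pool.H68.MS

/-- two cells and their cofactors -/
theorem pair_split {m : ℕ} (hm : 0 < m) {β : Fin 3 → GaussianInt}
    (hN : ∀ j, (β j).norm = (m : ℤ) ^ 2)
    {γ : Fin 10 → GaussianInt} {u : Fin 3 → GaussianInt}
    (hγ : ∀ j, β j = u j * ∏ i, ((γ i) ^ (pat i j) * (star (γ i)) ^ (2 - pat i j)))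
    (hmm : (m : ℤ) = ∏ i, (γ i).norm) {i1 i2 : Fin 10} (h12 : i2 ≠ i1) :
    ∃ (δ : Fin 3 → GaussianInt) (Q : ℕ), 0 < Q ∧
      (m : ℤ) = (γ i1).norm * (γ i2).norm * Q ∧ (∀ j, (δ j).norm = (Q : ℤ) ^ 2) ∧
      ∀ j, β j = bet2 i1 i2 δ (γ i1) (γ i2) j := by
  classical
  have hnn : ∀ i, 0 ≤ (γ i).norm := fun i => Zsqrtd.norm_nonneg (by norm_num) _
  have hm0 : (m : ℤ) ≠ 0 := by exact_mod_cast hm.ne'
  have hpos : ∀ i, 0 < (γ i).norm := by
    intro i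
    refine lt_of_le_of_ne (hnn i) fun h => hm0 ?_
    rw [hmm]
    exact Finset.prod_eq_zero (Finset.mem_univ i) h.symm
  have hmem : i2 ∈ Finset.univ.erase i1 := Finset.mem_erase.2 ⟨h12, Finset.mem_univ _⟩
  set Qz : ℤ := ∏ k ∈ (Finset.univ.erase i1).erase i2, (γ k).norm with hQz
  have hQ0 : 0 < Qz := Finset.prod_pos fun k _ => hpos k
  obtain ⟨Q, hQ⟩ : ∃ Q : ℕ, Qz = Q := ⟨Qz.toNat, (Int.toNat_of_nonneg hQ0.le).symm⟩
  have hmQ : (m : ℤ) = (γ i1).norm * (γ i2).norm * Q := by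
    rw [← hQ, hQz, hmm, mul_assoc, Finset.mul_prod_erase _ (fun k => (γ k).norm) hmem,
      Finset.mul_prod_erase Finset.univ (fun k => (γ k).norm) (Finset.mem_univ i1)]
  have hβ : ∀ j, β j = (γ i1) ^ (pat i1 j) * (star (γ i1)) ^ (2 - pat i1 j) *
      ((γ i2) ^ (pat i2 j) * (star (γ i2)) ^ (2 - pat i2 j)) *
      (u j * ∏ k ∈ (Finset.univ.erase i1).erase i2,
        ((γ k) ^ (pat k j) * (star (γ k)) ^ (2 - pat k j))) := by
    intro j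
    rw [hγ j, ← Finset.mul_prod_erase Finset.univ
      (fun k => (γ k) ^ (pat k j) * (star (γ k)) ^ (2 - pat k j)) (Finset.mem_univ i1),
      ← Finset.mul_prod_erase (Finset.univ.erase i1)
      (fun k => (γ k) ^ (pat k j) * (star (γ k)) ^ (2 - pat k j)) hmem]
    ring
  refine ⟨_, Q, by exact_mod_cast (hQ ▸ hQ0), hmQ, fun j => ?_, hβ⟩
  have h3 := hN j
  rw [hβ j, Zsqrtd.norm_mul, Zsqrtd.norm_mul, norm_pair _ (pat_le i1 j), norm_pair _ (pat_le i2 j),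
    hmQ] at h3
  have h4 : (γ i1).norm ^ 2 * (γ i2).norm ^ 2 ≠ 0 :=
    mul_ne_zero (pow_pos (hpos i1) 2).ne' (pow_pos (hpos i2) 2).ne'
  apply mul_left_cancel₀ h4
  rw [h3]
  ring

theorem select2 {m : ℕ} {n : Fin 10 → ℕ} (hn : ∀ i, 0 < n i) (hm : m = ∏ i, n i) :
    ∃ s : Fin 6, m ≤ n (Bc s) ^ 6 * (n (A1 s) * n (A2 s)) ^ 2 := by
  by_contra hcon
  push Not at hcon
  have h3 : ∏ s : Fin 6, (n (Bc s) ^ 6 * (n (A1 s) * n (A2 s)) ^ 2) < ∏ _s : Fin 6, m :=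
    Finset.prod_lt_prod_of_nonempty
      (fun s _ => Nat.mul_pos (pow_pos (hn _) 6) (pow_pos (Nat.mul_pos (hn _) (hn _)) 2))
      (fun s _ => hcon s) Finset.univ_nonempty
  rw [Finset.prod_const, Finset.card_univ, Fintype.card_fin] at h3
  have h4 : ∏ s : Fin 6, (n (Bc s) ^ 6 * (n (A1 s) * n (A2 s)) ^ 2) = m ^ 6 := by
    rw [hm]
    simp [Fin.prod_univ_succ, Bc, A1, A2]
    ring
  rw [h4] at h3
  exact lt_irrefl _ h3

/-- the two sizes -/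
theorem sizes2 {m G K k W F R M K0 k0 : ℕ} (hG : 0 < G) (hK : 0 < K) (hk : 0 < k)
    (hK0 : 0 < K0) (hk0 : 0 < k0) (hKK : K0 ≤ K) (hkk : k0 ≤ k)
    (hWF : W ≤ F) (hm : m = G * K * k * (W * F)) (hsel : m ≤ G ^ 6 * (K * k) ^ 2)
    (hG3 : G ^ 3 ≤ m) (hmM : m ≤ M) (hR : M ^ 2 ≤ R ^ 3 * (K0 * k0)) :
    F * W ≤ R * G ∧ G * W ≤ R := by
  have hm2 : m ^ 2 ≤ R ^ 3 * (K0 * k0) := (Nat.pow_le_pow_left hmM 2).trans hR
  have hKk : K0 * k0 ≤ K * k := Nat.mul_le_mul hKK hkk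
  have hp0 : 0 < K0 * k0 := Nat.mul_pos hK0 hk0
  constructor
  · have h1 : (F * W) ^ 3 * (K * k) * (G ^ 3 * (K * k) ^ 2) ≤
        m ^ 2 * G ^ 3 * (G ^ 3 * (K * k) ^ 2) := by
      calc (F * W) ^ 3 * (K * k) * (G ^ 3 * (K * k) ^ 2) = m ^ 2 * m := by rw [hm]; ring
        _ ≤ m ^ 2 * (G ^ 6 * (K * k) ^ 2) := Nat.mul_le_mul_left _ hsel
        _ = m ^ 2 * G ^ 3 * (G ^ 3 * (K * k) ^ 2) := by ring
    have h2 : (F * W) ^ 3 * (K * k) ≤ m ^ 2 * G ^ 3 :=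
      Nat.le_of_mul_le_mul_right h1 (by positivity)
    have h3 : (F * W) ^ 3 * (K0 * k0) ≤ (R * G) ^ 3 * (K0 * k0) := by
      calc (F * W) ^ 3 * (K0 * k0) ≤ (F * W) ^ 3 * (K * k) := Nat.mul_le_mul_left _ hKk
        _ ≤ m ^ 2 * G ^ 3 := h2
        _ ≤ R ^ 3 * (K0 * k0) * G ^ 3 := Nat.mul_le_mul_right _ hm2
        _ = (R * G) ^ 3 * (K0 * k0) := by ring
    have h4 : (F * W) ^ 3 ≤ (R * G) ^ 3 := Nat.le_of_mul_le_mul_right h3 hp0
    exact (Nat.pow_le_pow_iff_left (by norm_num)).1 h4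
  · have h0 : G ^ 2 ≤ K * k * (W * F) := by
      have h1 : G * G ^ 2 ≤ G * (K * k * (W * F)) := by
        calc G * G ^ 2 = G ^ 3 := by ring
          _ ≤ m := hG3
          _ = G * (K * k * (W * F)) := by rw [hm]; ring
      exact Nat.le_of_mul_le_mul_left h1 hG
    have hKk1 : 1 ≤ K * k := Nat.mul_pos hK hk
    have h1 : (G * W) ^ 2 ≤ (F ^ 2 * (K * k)) ^ 2 := by
      calc (G * W) ^ 2 = G ^ 2 * W ^ 2 := by ring
        _ ≤ K * k * (W * F) * W ^ 2 := Nat.mul_le_mul_right _ h0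
        _ ≤ K * k * (F * F) * F ^ 2 := by gcongr
        _ = F ^ 4 * (K * k) * 1 := by ring
        _ ≤ F ^ 4 * (K * k) * (K * k) := Nat.mul_le_mul_left _ hKk1
        _ = (F ^ 2 * (K * k)) ^ 2 := by ring
    have h2 : G * W ≤ F ^ 2 * (K * k) := (Nat.pow_le_pow_iff_left (by norm_num)).1 h1
    have h3 : (G * W) ^ 3 * (K0 * k0) ≤ R ^ 3 * (K0 * k0) := by
      calc (G * W) ^ 3 * (K0 * k0) ≤ (G * W) ^ 3 * (K * k) := Nat.mul_le_mul_left _ hKk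
        _ = (G * W) ^ 2 * (K * k) * (G * W) := by ring
        _ ≤ (G * W) ^ 2 * (K * k) * (F ^ 2 * (K * k)) := Nat.mul_le_mul_left _ h2
        _ = m ^ 2 := by rw [hm]; ring
        _ ≤ R ^ 3 * (K0 * k0) := hm2
    have h4 : (G * W) ^ 3 ≤ R ^ 3 := Nat.le_of_mul_le_mul_right h3 hp0
    exact (Nat.pow_le_pow_iff_left (by norm_num)).1 h4

/-- admissible cofactors of a pair -/
def Adm2 (M R Q : ℕ) : Prop :=
  ∃ (g x y : GaussianInt) (n1 n2 n3 : ℕ) (p : GaussianInt × GaussianInt), p ∈ AB y ∧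
    g.norm = n1 ∧ y.norm = n2 ∧ x.norm = n3 ∧ 0 < n1 ∧ 0 < n2 ∧ 0 < n3 ∧
    IsCoprime g (star g) ∧ IsCoprime p.1 (star g) ∧ IsCoprime p.2 (star g) ∧
    IsCoprime x.re x.im ∧ IsCoprime x (star g) ∧ IsCoprime (star x) (star g) ∧
    (star g) ^ 2 ∣ p.1 * x ^ 4 - p.2 * (star x) ^ 4 ∧
    n3 * n2 ≤ R * n1 ∧ n1 * n2 ≤ R ∧ n1 * n2 * n3 ≤ M ∧ Q = n1 * n2 * n3

theorem adm2_of {m M R : ℕ} {g w f : GaussianInt} {G K k K0 k0 W F Q : ℕ} {ε : ℤ}
    (hε : ε = 1 ∨ ε = -1) (hg : IsCoprime g (star g)) (hw : Cpl g w) (hf : Cpl g f)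
    (hd : (star g) ^ 2 ∣ w ^ 4 * f ^ 2 - (ε : GaussianInt) * (star w ^ 4 * star f ^ 2))
    (hgG : g.norm = G) (hwW : w.norm = W) (hfF : f.norm = F) (hG : 0 < G) (hK : 0 < K)
    (hk : 0 < k) (hW : 0 < W) (hF : 0 < F) (hK0 : 0 < K0) (hk0 : 0 < k0) (hKK : K0 ≤ K)
    (hkk : k0 ≤ k) (hm : m = G * K * k * (W * F))
    (hsel : m ≤ G ^ 6 * (K * k) ^ 2) (hG3 : G ^ 3 ≤ m) (hmM : m ≤ M)
    (hR : M ^ 2 ≤ R ^ 3 * (K0 * k0)) (hQ : m = K * k * Q) : Adm2 M R Q := by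
  classical
  have hKk : 0 < K * k := Nat.mul_pos hK hk
  have hQ' : Q = G * (W * F) := by
    apply Nat.eq_of_mul_eq_mul_left hKk
    rw [← hQ, hm]
    ring
  have hQM : Q ≤ M := by
    refine le_trans ?_ hmM
    rw [hQ]
    exact Nat.le_mul_of_pos_left _ hKk
  rcases le_total W F with hWF | hFW
  · obtain ⟨s1, s2⟩ := sizes2 hG hK hk hK0 hk0 hKK hkk hWF hm hsel hG3 hmM hR
    refine ⟨g, f, w, G, W, F, (w ^ 8, (star w) ^ 8), ?_, hgG, hwW, hfF, hG, hW, hF, hg,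
      hw.2.1.pow_left, hw.2.2.pow_left, hf.1, hf.2.1, hf.2.2, ?_, s1, s2, ?_, ?_⟩
    · unfold AB
      simp
    · obtain ⟨c, hc⟩ := hd
      refine ⟨c * (w ^ 4 * f ^ 2 + (ε : GaussianInt) * (star w ^ 4 * star f ^ 2)), ?_⟩
      have h1 : (ε : GaussianInt) * (ε : GaussianInt) = 1 := by
        rcases hε with rfl | rfl <;> simp
      simp only
      linear_combination (w ^ 4 * f ^ 2 + (ε : GaussianInt) * (star w ^ 4 * star f ^ 2)) * hc +
        (star w ^ 4 * star f ^ 2) ^ 2 * h1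
    · rw [hQ'] at hQM
      calc G * W * F = G * (W * F) := by ring
        _ ≤ M := hQM
    · rw [hQ']
      ring
  · have hm' : m = G * K * k * (F * W) := by rw [hm]; ring
    obtain ⟨s1, s2⟩ := sizes2 hG hK hk hK0 hk0 hKK hkk hFW hm' hsel hG3 hmM hR
    refine ⟨g, w, f, G, F, W, (f ^ 2, (ε : GaussianInt) * (star f) ^ 2), ?_, hgG, hfF, hwW, hG,
      hF, hW, hg, hf.2.1.pow_left, ?_, hw.1, hw.2.1, hw.2.2, ?_, s1, s2, ?_, ?_⟩
    · unfold AB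
      rcases hε with rfl | rfl <;> simp
    · rcases hε with rfl | rfl
      · simp only [Int.cast_one, one_mul]
        exact hf.2.2.pow_left
      · simp only [Int.cast_neg, Int.cast_one, neg_mul, one_mul]
        exact (hf.2.2.pow_left).neg_left
    · obtain ⟨c, hc⟩ := hd
      refine ⟨c, ?_⟩
      simp only
      linear_combination hc
    · rw [hQ'] at hQM
      calc G * F * W = G * (W * F) := by ring
        _ ≤ M := hQM
    · rw [hQ']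
      ring

theorem A_ne : ∀ s : Fin 6, A2 s ≠ A1 s := by decide

/-- the refinement of a centre -/
theorem cells_of {m : ℕ} (hm : 0 < m) (h : Ctr m) :
    ∃ (β : Fin 3 → GaussianInt) (γ : Fin 10 → GaussianInt) (u : Fin 3 → GaussianInt)
      (n : Fin 10 → ℕ), (∀ j, (β j).norm = (m : ℤ) ^ 2) ∧ Cop β ∧
      ((β 0 ^ 2).im + (β 1 ^ 2).im = (β 2 ^ 2).im) ∧ (∀ j, (β j ^ 2).im ≠ 0) ∧
      (∀ j, (u j).norm = 1) ∧
      (∀ j, β j = u j * ∏ i, ((γ i) ^ (pat i j) * (star (γ i)) ^ (2 - pat i j))) ∧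
      ((m : ℤ) = ∏ i, (γ i).norm) ∧ (∀ i, IsCoprime (γ i).re (γ i).im) ∧
      (∀ i, (γ i).norm = n i) ∧ (∀ i, 0 < n i) ∧ m = ∏ i, n i := by
  obtain ⟨a, b, ha, hb, hab, hsq, hp⟩ := h
  obtain ⟨β0, h01, h02⟩ := gauss (hsq a (by simp)).1 (hsq a (by simp)).2
  obtain ⟨β1, h11, h12⟩ := gauss (hsq b (by simp)).1 (hsq b (by simp)).2
  obtain ⟨β2, h21, h22⟩ := gauss (hsq (a + b) (by simp)).1 (hsq (a + b) (by simp)).2
  let β : Fin 3 → GaussianInt := ![β0, β1, β2]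
  have hN : ∀ j, (β j).norm = (m : ℤ) ^ 2 := by
    intro j
    fin_cases j
    · exact h01
    · exact h11
    · exact h21
  have key : ∀ p : ℕ, p.Prime → ∀ i j : Fin 3, i ≠ j → (p : GaussianInt) ∣ β i →
      (p : GaussianInt) ∣ β j → False := by
    intro p hpp i j hij hi hj
    refine hp p hpp (dvd_of_norm hpp hi (hN i)) ?_
    have hi' := sq_dvd_im hi
    have hj' := sq_dvd_im hj
    have e0 : (β 0 ^ 2).im = a := h02
    have e1 : (β 1 ^ 2).im = b := h12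
    have e2 : (β 2 ^ 2).im = a + b := h22
    have f1 : (p : ℤ) ^ 2 ∣ a → (p : ℤ) ^ 2 ∣ a + b → (p : ℤ) ^ 2 ∣ b := fun x y => by
      have := dvd_sub y x
      simpa using this
    have f2 : (p : ℤ) ^ 2 ∣ b → (p : ℤ) ^ 2 ∣ a + b → (p : ℤ) ^ 2 ∣ a := fun x y => by
      have := dvd_sub y x
      simpa using this
    fin_cases i <;> fin_cases j <;>
      simp only [Fin.zero_eta, Fin.mk_one, Fin.reduceFinMk, e0, e1, e2] at hi' hj' <;>
      first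
        | exact absurd rfl hij
        | exact ⟨hi', hj'⟩
        | exact ⟨hj', hi'⟩
        | exact ⟨hi', f1 hi' hj'⟩
        | exact ⟨hj', f1 hj' hi'⟩
        | exact ⟨f2 hi' hj', hi'⟩
        | exact ⟨f2 hj' hi', hj'⟩
  have hC : Cop β := fun p hpp i j hij h => key p hpp i j hij h.1 h.2
  have hrel : (β 0 ^ 2).im + (β 1 ^ 2).im = (β 2 ^ 2).im :=
    (congrArg₂ (· + ·) h02 h12).trans h22.symm
  have hne : ∀ j, (β j ^ 2).im ≠ 0 := by
    intro j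
    fin_cases j
    · exact fun h => ha (h02.symm.trans h)
    · exact fun h => hb (h12.symm.trans h)
    · exact fun h => hab (h22.symm.trans h)
  obtain ⟨γ, u, hu, hγ, hmm⟩ := refine3 m hm β hN hC
  have hprim : ∀ i, IsCoprime (γ i).re (γ i).im := by
    intro i
    rw [Int.isCoprime_iff_gcd_eq_one]
    by_contra hg
    obtain ⟨p, hpp, hpd⟩ := Nat.exists_prime_and_dvd hg
    have h1 : (p : ℤ) ∣ (γ i).re := (Int.natCast_dvd_natCast.2 hpd).trans (Int.gcd_dvd_left ..)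
    have h2 : (p : ℤ) ∣ (γ i).im := (Int.natCast_dvd_natCast.2 hpd).trans (Int.gcd_dvd_right ..)
    have h3 := nat_dvd_of h1 h2
    have h4 : (p : GaussianInt) ∣ star (γ i) := by
      apply nat_dvd_star
      rwa [star_star]
    have h5 : ∀ j, (p : GaussianInt) ∣ β j := by
      intro j
      rw [hγ j]
      apply Dvd.dvd.mul_left
      refine Dvd.dvd.trans ?_ (Finset.dvd_prod_of_mem
        (fun i => (γ i) ^ (pat i j) * (star (γ i)) ^ (2 - pat i j)) (Finset.mem_univ i))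
      rcases Nat.eq_zero_or_pos (pat i j) with h6 | h6
      · simp only [h6]
        exact (dvd_pow h4 (by norm_num)).mul_left _
      · exact (dvd_pow h3 h6.ne').mul_right _
    exact key p hpp 0 1 (by decide) (h5 0) (h5 1)
  have hnn : ∀ i, 0 ≤ (γ i).norm := fun i => Zsqrtd.norm_nonneg (by norm_num) _
  have hm0 : (m : ℤ) ≠ 0 := by exact_mod_cast hm.ne'
  have hpos : ∀ i, 0 < (γ i).norm := by
    intro i
    refine lt_of_le_of_ne (hnn i) fun h => hm0 ?_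
    rw [hmm]
    exact Finset.prod_eq_zero (Finset.mem_univ i) h.symm
  have hnat : ∀ i, ∃ n : ℕ, (γ i).norm = n ∧ 0 < n := by
    intro i
    refine ⟨(γ i).norm.toNat, (Int.toNat_of_nonneg (hnn i)).symm, ?_⟩
    have := hpos i
    omega
  choose n hn hn0 using hnat
  have hmn : m = ∏ i, n i := by
    have h1 : (m : ℤ) = ((∏ i, n i : ℕ) : ℤ) := by
      rw [hmm]
      push_cast
      exact Finset.prod_congr rfl fun i _ => hn i
    exact_mod_cast h1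
  exact ⟨β, γ, u, n, hN, hC, hrel, hne, hu, hγ, hmm, hprim, hn, hn0, hmn⟩

/-- the data of a centre: one large cell, or a pair of cells -/
theorem centre4 {m M : ℕ} (hm : 0 < m) (hmM : m ≤ M) (h : Ctr m) :
    (∃ (i : Fin 10) (γ : GaussianInt) (δ : Fin 3 → GaussianInt) (Q : ℕ), 0 < Q ∧
      (m : ℤ) = γ.norm * Q ∧ (∀ j, (δ j).norm = (Q : ℤ) ^ 2) ∧ Q ^ 3 ≤ M ^ 2 ∧
      IsCoprime γ.re γ.im ∧ (bet i δ γ 0 ^ 2).im + (bet i δ γ 1 ^ 2).im = (bet i δ γ 2 ^ 2).im ∧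
      ∀ j, (bet i δ γ j ^ 2).im ≠ 0) ∨
    ∃ (s : Fin 6) (z w : GaussianInt) (δ : Fin 3 → GaussianInt) (Q : ℕ), 0 < Q ∧
      (m : ℤ) = z.norm * w.norm * Q ∧ (∀ j, (δ j).norm = (Q : ℤ) ^ 2) ∧
      IsCoprime z.re z.im ∧ IsCoprime w.re w.im ∧ (z ^ 4 * cf (AA s δ) (BB s δ) w).im = 0 ∧
      (∀ j, (bet2 (A1 s) (A2 s) δ z w j ^ 2).im ≠ 0) ∧
      ∀ R K0 k0 : ℕ, 0 < K0 → 0 < k0 → (K0 : ℤ) ≤ z.norm → (k0 : ℤ) ≤ w.norm →
        M ^ 2 ≤ R ^ 3 * (K0 * k0) → Adm2 M R Q := by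
  obtain ⟨β, γ, u, n, hN, hC, hrel, hne, hu, hγ, hmm, hprim, hn, hn0, hmn⟩ := cells_of hm h
  obtain ⟨s, hs⟩ := select2 hn0 hmn
  by_cases hbig : m < n (Bc s) ^ 3
  · left
    obtain ⟨δ, Q, hQ0, hmQ, hδ, hβ⟩ := cell_split hm hN hγ hmm (Bc s)
    refine ⟨Bc s, γ (Bc s), δ, Q, hQ0, hmQ, hδ, ?_, hprim _, ?_, fun j => ?_⟩
    · rw [hn] at hmQ
      have hmQ' : m = n (Bc s) * Q := by exact_mod_cast hmQ
      have h1 : m * Q ^ 3 ≤ m * m ^ 2 := by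
        calc m * Q ^ 3 ≤ n (Bc s) ^ 3 * Q ^ 3 := Nat.mul_le_mul_right _ hbig.le
          _ = m * m ^ 2 := by rw [hmQ']; ring
      exact (Nat.le_of_mul_le_mul_left h1 hm).trans (Nat.pow_le_pow_left hmM 2)
    · rw [← hβ 0, ← hβ 1, ← hβ 2]
      exact hrel
    · rw [← hβ j]
      exact hne j
  · right
    push Not at hbig
    obtain ⟨δ, Q, hQ0, hmQ, hδ, hβ⟩ := pair_split hm hN hγ hmm (A_ne s)
    obtain ⟨w, f, ε, hε, hg, hw, hf, hN5, hd⟩ := cell_data hC hrel hu hγ hmm s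
    refine ⟨s, γ (A1 s), γ (A2 s), δ, Q, hQ0, hmQ, hδ, hprim _, hprim _, ?_, fun j => ?_, ?_⟩
    · rw [rel_AB, ← hβ 0, ← hβ 1, ← hβ 2, hrel, sub_self]
    · rw [← hβ j]
      exact hne j
    · intro R K0 k0 hK0 hk0 hKK hkk hR
      obtain ⟨W, hW⟩ : ∃ W : ℕ, w.norm = W := ⟨w.norm.toNat,
        (Int.toNat_of_nonneg (Zsqrtd.norm_nonneg (by norm_num) _)).symm⟩
      obtain ⟨F, hF⟩ : ∃ F : ℕ, f.norm = F := ⟨f.norm.toNat,
        (Int.toNat_of_nonneg (Zsqrtd.norm_nonneg (by norm_num) _)).symm⟩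
      rw [hn, hn, hn, hW, hF] at hN5
      have hN6 : m = n (Bc s) * n (A1 s) * n (A2 s) * (W * F) := by exact_mod_cast hN5
      have hWF0 : 0 < W * F := by
        rcases Nat.eq_zero_or_pos (W * F) with h | h
        · rw [h, Nat.mul_zero] at hN6
          omega
        · exact h
      have hW0 : 0 < W := Nat.pos_of_ne_zero fun h => by rw [h, Nat.zero_mul] at hWF0; omega
      have hF0 : 0 < F := Nat.pos_of_ne_zero fun h => by rw [h, Nat.mul_zero] at hWF0; omega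
      rw [hn] at hKK hkk
      rw [hn, hn] at hmQ
      exact adm2_of hε hg hw hf hd (hn _) hW hF (hn0 _) (hn0 _) (hn0 _) hW0 hF0 hK0 hk0
        (by exact_mod_cast hKK) (by exact_mod_cast hkk) hN6 hs hbig hmM hR
        (by exact_mod_cast hmQ)

end Pool.H68.MT
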