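import Mathlib

/-!
# The tensor of two Gaussian integers
-/

set_option autoImplicit false

namespace Pool.H68.MT

/-- the four products of the coordinates -/
def tens (z w : GaussianInt) : Fin 4 → ℤ :=
  ![z.re * w.re, z.re * w.im, z.im * w.re, z.im * w.im]

/-- the second factor of the relation -/
def cf (A B w : GaussianInt) : GaussianInt := A * w ^ 4 + B * (star w) ^ 4

end Pool.H68.MT
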