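import Pool.Agent.H68.MT.Sel2

/-!
# The exponents one third and two thirds
-/

set_option autoImplicit false

namespace Pool.H68.MT

open Pool.H68.MS

/-- the centres from one cell -/
theorem count_cells (M B : ℕ) (hB : ∀ Q, 0 < Q → Q ≤ M → 4 * (Q ^ 2).divisors.card ^ 4 ≤ B)
    (Qset : Finset ℕ) :
    ∃ W : Finset ℕ, W.card ≤ 100 * Qset.card * B ^ 3 ∧
      ∀ (m : ℕ) (i : Fin 10) (γ : GaussianInt) (δ : Fin 3 → GaussianInt) (Q : ℕ), Q ∈ Qset →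
        0 < Q → Q ≤ M → (m : ℤ) = γ.norm * Q → (∀ j, (δ j).norm = (Q : ℤ) ^ 2) →
        IsCoprime γ.re γ.im → (bet i δ γ 0 ^ 2).im + (bet i δ γ 1 ^ 2).im = (bet i δ γ 2 ^ 2).im →
        (∀ j, (bet i δ γ j ^ 2).im ≠ 0) → m ∈ W := by
  classical
  have hS : ∀ Q : ℕ, ∃ S : Finset GaussianInt, (0 < Q → S.card ≤ 4 * (Q ^ 2).divisors.card ^ 4) ∧
      (0 < Q → ∀ β : GaussianInt, β.norm = ((Q ^ 2 : ℕ) : ℤ) → β ∈ S) := by
    intro Q
    by_cases h : 0 < Q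
    · obtain ⟨S, h1, h2⟩ := div_set (Q ^ 2) (by positivity)
      exact ⟨S, fun _ => h1, fun _ => h2⟩
    · exact ⟨∅, fun h' => absurd h' h, fun h' => absurd h' h⟩
  choose S hS1 hS2 using hS
  have hF : ∀ (i : Fin 10) (Q : ℕ) (δ : Fin 3 → GaussianInt), ∃ F : Finset GaussianInt,
      F.card ≤ 10 ∧ (0 < Q → (∀ j, (δ j).norm = (Q : ℤ) ^ 2) → ∀ γ : GaussianInt,
        IsCoprime γ.re γ.im →
        (bet i δ γ 0 ^ 2).im + (bet i δ γ 1 ^ 2).im = (bet i δ γ 2 ^ 2).im →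
        (∀ j, (bet i δ γ j ^ 2).im ≠ 0) → γ ∈ F) := by
    intro i Q δ
    by_cases h : 0 < Q ∧ ∀ j, (δ j).norm = (Q : ℤ) ^ 2
    · obtain ⟨F, h1, h2⟩ := few_cells i δ Q h.1 h.2
      exact ⟨F, h1, fun _ _ => h2⟩
    · exact ⟨∅, by simp, fun h1 h2 => absurd ⟨h1, h2⟩ h⟩
  choose F hF1 hF2 using hF
  refine ⟨(Finset.univ ×ˢ (Qset.filter fun Q => 0 < Q ∧ Q ≤ M)).biUnion fun x : Fin 10 × ℕ =>
    (Fintype.piFinset fun _ : Fin 3 => S x.2).biUnion fun δ =>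
      (F x.1 x.2 δ).image fun γ => γ.norm.toNat * x.2, ?_, ?_⟩
  · have h1 : ∀ x ∈ (Finset.univ ×ˢ (Qset.filter fun Q => 0 < Q ∧ Q ≤ M) : Finset (Fin 10 × ℕ)),
        ((Fintype.piFinset fun _ : Fin 3 => S x.2).biUnion fun δ =>
          (F x.1 x.2 δ).image fun γ => γ.norm.toNat * x.2).card ≤ B ^ 3 * 10 := by
      intro x hx
      have hx2 := (Finset.mem_product.1 hx).2
      rw [Finset.mem_filter] at hx2
      have h2 : ((Fintype.piFinset fun _ : Fin 3 => S x.2)).card ≤ B ^ 3 := by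
        rw [Fintype.card_piFinset, Finset.prod_const, Finset.card_univ, Fintype.card_fin]
        exact Nat.pow_le_pow_left ((hS1 x.2 hx2.2.1).trans (hB x.2 hx2.2.1 hx2.2.2)) 3
      refine (Finset.card_biUnion_le_card_mul _ _ 10 fun δ _ => ?_).trans
        (Nat.mul_le_mul_right 10 h2)
      exact Finset.card_image_le.trans (hF1 _ _ _)
    refine (Finset.card_biUnion_le_card_mul _ _ _ h1).trans ?_
    rw [Finset.card_product, Finset.card_univ, Fintype.card_fin]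
    have h3 : (Qset.filter fun Q => 0 < Q ∧ Q ≤ M).card ≤ Qset.card := Finset.card_filter_le _ _
    calc 10 * (Qset.filter fun Q => 0 < Q ∧ Q ≤ M).card * (B ^ 3 * 10) ≤
        10 * Qset.card * (B ^ 3 * 10) :=
          Nat.mul_le_mul_right _ (Nat.mul_le_mul_left _ h3)
      _ = 100 * Qset.card * B ^ 3 := by ring
  · intro m i γ δ Q hQ hQ0 hQM hmQ hδ hco hrel hne
    rw [Finset.mem_biUnion]
    have h1 : 0 ≤ γ.norm := Zsqrtd.norm_nonneg (by norm_num) _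
    have h2 : γ.norm.toNat * Q = m := by
      have h3 : ((γ.norm.toNat * Q : ℕ) : ℤ) = m := by
        push_cast
        rw [Int.toNat_of_nonneg h1, hmQ]
      exact_mod_cast h3
    refine ⟨(i, Q), Finset.mem_product.2 ⟨Finset.mem_univ _, ?_⟩, ?_⟩
    · rw [Finset.mem_filter]
      exact ⟨hQ, hQ0, hQM⟩
    · rw [Finset.mem_biUnion]
      refine ⟨δ, ?_, ?_⟩
      · rw [Fintype.mem_piFinset]
        intro j
        apply hS2 Q hQ0
        rw [hδ j]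
        push_cast
        rfl
      · rw [Finset.mem_image]
        exact ⟨γ, hF2 i Q δ hQ0 hδ γ hco hrel hne, h2⟩

/-- few pairs for given cofactors -/
theorem few_pairs (ε : ℝ) (hε : 0 < ε) : ∃ C : ℝ, 0 < C ∧ ∀ M : ℕ, 1 ≤ M → ∀ K k : ℕ, 1 ≤ K →
    1 ≤ k → K ≤ M → k ≤ M → ∀ (s : Fin 6) (Q : ℕ) (δ : Fin 3 → GaussianInt), 0 < Q → Q ≤ M →
    (∀ j, (δ j).norm = (Q : ℤ) ^ 2) →
    ∃ S : Finset (GaussianInt × GaussianInt),
      (S.card : ℝ) ≤ C * ((K : ℝ) * k) ^ (1 / 3 : ℝ) * (M : ℝ) ^ ε ∧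
      ∀ z w : GaussianInt, IsCoprime z.re z.im → IsCoprime w.re w.im → z.norm ≤ K →
        w.norm ≤ k → (z ^ 4 * cf (AA s δ) (BB s δ) w).im = 0 →
        (∀ j, (bet2 (A1 s) (A2 s) δ z w j ^ 2).im ≠ 0) → (z, w) ∈ S := by
  obtain ⟨C, hC, hpc⟩ := pair_count ε hε
  refine ⟨C, hC, fun M hM K k hK hk hKM hkM s Q δ hQ hQM hδ => ?_⟩
  have hQ0 : (Q : ℤ) ≠ 0 := by exact_mod_cast hQ.ne'
  obtain ⟨p1, p2, p3, p4⟩ := AB_prop s δ hQ0 hδ
  by_cases hex : ∃ z w : GaussianInt, (z ^ 4 * cf (AA s δ) (BB s δ) w).im = 0 ∧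
        ∀ j, (bet2 (A1 s) (A2 s) δ z w j ^ 2).im ≠ 0
  · obtain ⟨hA, hB⟩ := p4 hex
    have hQM4 : 4 * (Q : ℤ) ^ 4 ≤ 4 * (M : ℤ) ^ 4 := by
      have : (Q : ℤ) ^ 4 ≤ (M : ℤ) ^ 4 :=
        pow_le_pow_left₀ (by positivity) (by exact_mod_cast hQM) 4
      linarith
    obtain ⟨S, hS1, hS2⟩ := hpc M hM K k hK hk hKM hkM (AA s δ) (BB s δ) hA hB p1
      (p2.trans hQM4) (p3.trans hQM4)
    exact ⟨S, hS1, fun z w h1 h2 h3 h4 h5 _ => hS2 z w h1 h2 h3 h4 h5⟩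
  · refine ⟨∅, ?_, fun z w _ _ _ _ h5 h6 => absurd ⟨z, w, h5, h6⟩ hex⟩
    simp only [Finset.card_empty, Nat.cast_zero]
    positivity

/-- the centres from a pair of cells -/
theorem count_pairs (M B : ℕ) (hB : ∀ Q, 0 < Q → Q ≤ M → 4 * (Q ^ 2).divisors.card ^ 4 ≤ B)
    (K k : ℕ) (s : Fin 6) (D : ℝ) (hD : 0 ≤ D)
    (hfew : ∀ (Q : ℕ) (δ : Fin 3 → GaussianInt), 0 < Q → Q ≤ M →
      (∀ j, (δ j).norm = (Q : ℤ) ^ 2) → ∃ S : Finset (GaussianInt × GaussianInt),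
      (S.card : ℝ) ≤ D ∧
      ∀ z w : GaussianInt, IsCoprime z.re z.im → IsCoprime w.re w.im → z.norm ≤ K →
        w.norm ≤ k → (z ^ 4 * cf (AA s δ) (BB s δ) w).im = 0 →
        (∀ j, (bet2 (A1 s) (A2 s) δ z w j ^ 2).im ≠ 0) → (z, w) ∈ S)
    (Qset : Finset ℕ) :
    ∃ W : Finset ℕ, (W.card : ℝ) ≤ Qset.card * (B : ℝ) ^ 3 * D ∧
      ∀ (m : ℕ) (z w : GaussianInt) (δ : Fin 3 → GaussianInt) (Q : ℕ), Q ∈ Qset →
        0 < Q → Q ≤ M → (m : ℤ) = z.norm * w.norm * Q → (∀ j, (δ j).norm = (Q : ℤ) ^ 2) →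
        IsCoprime z.re z.im → IsCoprime w.re w.im → z.norm ≤ K → w.norm ≤ k →
        (z ^ 4 * cf (AA s δ) (BB s δ) w).im = 0 →
        (∀ j, (bet2 (A1 s) (A2 s) δ z w j ^ 2).im ≠ 0) → m ∈ W := by
  classical
  have hS : ∀ Q : ℕ, ∃ S : Finset GaussianInt, (0 < Q → S.card ≤ 4 * (Q ^ 2).divisors.card ^ 4) ∧
      (0 < Q → ∀ β : GaussianInt, β.norm = ((Q ^ 2 : ℕ) : ℤ) → β ∈ S) := by
    intro Q
    by_cases h : 0 < Q
    · obtain ⟨S, h1, h2⟩ := div_set (Q ^ 2) (by positivity)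
      exact ⟨S, fun _ => h1, fun _ => h2⟩
    · exact ⟨∅, fun h' => absurd h' h, fun h' => absurd h' h⟩
  choose S hS1 hS2 using hS
  have hF : ∀ (Q : ℕ) (δ : Fin 3 → GaussianInt), ∃ F : Finset (GaussianInt × GaussianInt),
      (F.card : ℝ) ≤ D ∧ (0 < Q → Q ≤ M → (∀ j, (δ j).norm = (Q : ℤ) ^ 2) →
      ∀ z w : GaussianInt, IsCoprime z.re z.im → IsCoprime w.re w.im → z.norm ≤ K →
        w.norm ≤ k → (z ^ 4 * cf (AA s δ) (BB s δ) w).im = 0 →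
        (∀ j, (bet2 (A1 s) (A2 s) δ z w j ^ 2).im ≠ 0) → (z, w) ∈ F) := by
    intro Q δ
    by_cases h : 0 < Q ∧ Q ≤ M ∧ ∀ j, (δ j).norm = (Q : ℤ) ^ 2
    · obtain ⟨F, h1, h2⟩ := hfew Q δ h.1 h.2.1 h.2.2
      exact ⟨F, h1, fun _ _ _ => h2⟩
    · exact ⟨∅, by simpa using hD, fun h1 h2 h3 => absurd ⟨h1, h2, h3⟩ h⟩
  choose F hF1 hF2 using hF
  refine ⟨(Qset.filter fun Q => 0 < Q ∧ Q ≤ M).biUnion fun Q =>
    (Fintype.piFinset fun _ : Fin 3 => S Q).biUnion fun δ =>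
      (F Q δ).image fun x => x.1.norm.toNat * x.2.norm.toNat * Q, ?_, ?_⟩
  · have h0 : ∀ Q ∈ Qset.filter (fun Q => 0 < Q ∧ Q ≤ M),
        ((((Fintype.piFinset fun _ : Fin 3 => S Q).biUnion fun δ =>
          (F Q δ).image fun x => x.1.norm.toNat * x.2.norm.toNat * Q).card : ℕ) : ℝ) ≤
          (B : ℝ) ^ 3 * D := by
      intro Q hQ
      rw [Finset.mem_filter] at hQ
      have h2 : ((Fintype.piFinset fun _ : Fin 3 => S Q)).card ≤ B ^ 3 := by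
        rw [Fintype.card_piFinset, Finset.prod_const, Finset.card_univ, Fintype.card_fin]
        exact Nat.pow_le_pow_left ((hS1 Q hQ.2.1).trans (hB Q hQ.2.1 hQ.2.2)) 3
      have h3 : ((((Fintype.piFinset fun _ : Fin 3 => S Q).biUnion fun δ =>
          (F Q δ).image fun x => x.1.norm.toNat * x.2.norm.toNat * Q).card : ℕ) : ℝ) ≤
          ∑ δ ∈ (Fintype.piFinset fun _ : Fin 3 => S Q),
            ((((F Q δ).image fun x => x.1.norm.toNat * x.2.norm.toNat * Q).card : ℕ) : ℝ) := by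
        exact_mod_cast Finset.card_biUnion_le
      have h4 : ∀ δ ∈ (Fintype.piFinset fun _ : Fin 3 => S Q),
          ((((F Q δ).image fun x => x.1.norm.toNat * x.2.norm.toNat * Q).card : ℕ) : ℝ) ≤ D := by
        intro δ _
        refine le_trans ?_ (hF1 Q δ)
        exact_mod_cast Finset.card_image_le
      refine h3.trans ((Finset.sum_le_card_nsmul _ _ _ h4).trans ?_)
      rw [nsmul_eq_mul]
      apply mul_le_mul_of_nonneg_right _ hD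
      exact_mod_cast h2
    have h5 : (((Qset.filter fun Q => 0 < Q ∧ Q ≤ M).biUnion fun Q =>
        (Fintype.piFinset fun _ : Fin 3 => S Q).biUnion fun δ =>
          (F Q δ).image fun x => x.1.norm.toNat * x.2.norm.toNat * Q).card : ℝ) ≤
        ∑ Q ∈ Qset.filter (fun Q => 0 < Q ∧ Q ≤ M),
          ((((Fintype.piFinset fun _ : Fin 3 => S Q).biUnion fun δ =>
            (F Q δ).image fun x => x.1.norm.toNat * x.2.norm.toNat * Q).card : ℕ) : ℝ) := by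
      exact_mod_cast Finset.card_biUnion_le
    refine h5.trans ((Finset.sum_le_card_nsmul _ _ _ h0).trans ?_)
    rw [nsmul_eq_mul, mul_assoc]
    apply mul_le_mul_of_nonneg_right _ (by positivity)
    exact_mod_cast Finset.card_filter_le _ _
  · intro m z w δ Q hQ hQ0 hQM hmQ hδ hz hw hzK hwk hrel hne
    have h1 : 0 ≤ z.norm := Zsqrtd.norm_nonneg (by norm_num) _
    have h1' : 0 ≤ w.norm := Zsqrtd.norm_nonneg (by norm_num) _
    have h2 : z.norm.toNat * w.norm.toNat * Q = m := by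
      have h3 : ((z.norm.toNat * w.norm.toNat * Q : ℕ) : ℤ) = m := by
        push_cast
        rw [Int.toNat_of_nonneg h1, Int.toNat_of_nonneg h1', hmQ]
      exact_mod_cast h3
    rw [Finset.mem_biUnion]
    refine ⟨Q, Finset.mem_filter.2 ⟨hQ, hQ0, hQM⟩, ?_⟩
    rw [Finset.mem_biUnion]
    refine ⟨δ, ?_, ?_⟩
    · rw [Fintype.mem_piFinset]
      intro j
      apply hS2 Q hQ0
      rw [hδ j]
      push_cast
      rfl
    · rw [Finset.mem_image]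
      exact ⟨(z, w), hF2 Q δ hQ0 hQM hδ z w hz hw hzK hwk hrel hne, h2⟩

/-- a natural number slightly above `(M ^ 2 / T) ^ (1 / 3)` -/
theorem exists_R (M T : ℕ) (hM : 1 ≤ M) (hT : 1 ≤ T) (hTM : T ≤ M) : ∃ R : ℕ, 1 ≤ R ∧
    M ^ 2 ≤ R ^ 3 * T ∧ (R : ℝ) * (T : ℝ) ^ (1 / 3 : ℝ) ≤ 2 * (M : ℝ) ^ (2 / 3 : ℝ) := by
  have hM0 : (0 : ℝ) < M := by exact_mod_cast hM
  have hT0 : (0 : ℝ) < T := by exact_mod_cast hT
  have hM1 : (1 : ℝ) ≤ M := by exact_mod_cast hM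
  have hTM' : (T : ℝ) ≤ M := by exact_mod_cast hTM
  obtain ⟨x, hx⟩ : ∃ x : ℝ, x = ((M : ℝ) ^ 2 / T) ^ (1 / 3 : ℝ) := ⟨_, rfl⟩
  have hge : 1 ≤ (M : ℝ) ^ 2 / T := by
    rw [le_div_iff₀ hT0]
    nlinarith
  have hx1 : 1 ≤ x := by
    rw [hx]
    exact Real.one_le_rpow hge (by norm_num)
  have hx3 : x ^ 3 = (M : ℝ) ^ 2 / T := by
    rw [hx, ← Real.rpow_natCast, ← Real.rpow_mul (by positivity)]
    norm_num
  have hxT : x * (T : ℝ) ^ (1 / 3 : ℝ) = (M : ℝ) ^ (2 / 3 : ℝ) := by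
    rw [hx, ← Real.mul_rpow (by positivity) hT0.le, div_mul_cancel₀ _ hT0.ne',
      ← Real.rpow_natCast, ← Real.rpow_mul hM0.le]
    norm_num
  refine ⟨⌈x⌉₊, ?_, ?_, ?_⟩
  · exact Nat.one_le_iff_ne_zero.2 (Nat.ceil_pos.2 (by linarith)).ne'
  · have h1 : x ≤ (⌈x⌉₊ : ℝ) := Nat.le_ceil x
    have h2 : x ^ 3 ≤ (⌈x⌉₊ : ℝ) ^ 3 := pow_le_pow_left₀ (by linarith) h1 3
    rw [hx3, div_le_iff₀ hT0] at h2
    exact_mod_cast h2
  · have h1 : (⌈x⌉₊ : ℝ) ≤ 2 * x := by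
      have := (Nat.ceil_lt_add_one (a := x) (by linarith)).le
      linarith
    calc (⌈x⌉₊ : ℝ) * (T : ℝ) ^ (1 / 3 : ℝ) ≤ 2 * x * (T : ℝ) ^ (1 / 3 : ℝ) :=
          mul_le_mul_of_nonneg_right h1 (by positivity)
      _ = 2 * (M : ℝ) ^ (2 / 3 : ℝ) := by rw [mul_assoc, hxT]

theorem log_le_B {M B : ℕ} (hM : 1 ≤ M)
    (hB : ∀ Q, 0 < Q → Q ≤ M → 4 * (Q ^ 2).divisors.card ^ 4 ≤ B) : Nat.log 2 M + 1 ≤ B := by
  have h1 : 2 ^ Nat.log 2 M ≤ M := Nat.pow_log_le_self 2 (by omega)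
  have h2 := hB (2 ^ Nat.log 2 M) (by positivity) h1
  rw [← pow_mul, Nat.divisors_prime_pow Nat.prime_two, Finset.card_map, Finset.card_range] at h2
  have h3 : Nat.log 2 M + 1 ≤ (Nat.log 2 M * 2 + 1) ^ 4 := by
    calc Nat.log 2 M + 1 ≤ Nat.log 2 M * 2 + 1 := by omega
      _ ≤ (Nat.log 2 M * 2 + 1) ^ 4 := Nat.le_self_pow (by norm_num) _
  omega

end Pool.H68.MT
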